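import Pool.Agent.Helper75.LQ.Sts

/-! Taylor polynomials of `S g s` and Gaussian integrals. -/

set_option autoImplicit false

open Complex MeasureTheory Filter Topology

namespace Pool.Agent.Helper36.LQ

open Pool.Agent.Helper75.LQ

theorem S_differentiable {g : ℂ → ℂ} (hg : Differentiable ℂ g) (p : ℂ) :
    Differentiable ℂ (S g p) := by
  unfold S
  apply Differentiable.mul
  · exact hg.comp (by fun_prop)
  · exact hg.comp (by fun_prop)

theorem S_neg (g : ℂ → ℂ) (p η : ℂ) : S g p (-η) = S g p η := by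
  unfold S
  rw [mul_neg, sub_neg_eq_add, ← sub_eq_add_neg, mul_comm]

theorem tc_odd (g : ℂ → ℂ) (p : ℂ) (m : ℕ) : tc (S g p) (2 * m + 1) = 0 := by
  have h1 := iteratedDeriv_comp_neg (2 * m + 1) (S g p) (0 : ℂ)
  have h2 : (fun x => S g p (-x)) = S g p := funext fun x => S_neg g p x
  rw [h2, neg_zero, pow_succ, pow_mul, neg_one_sq, one_pow, one_mul, neg_one_smul] at h1
  rw [tc, CharZero.eq_neg_self_iff.mp h1, zero_div]

theorem tc_hasSum {g : ℂ → ℂ} (hg : Differentiable ℂ g) (p η : ℂ) :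
    HasSum (fun m : ℕ => tc (S g p) (2 * m) * η ^ (2 * m)) (S g p η) := by
  have h1 := Complex.hasSum_taylorSeries_of_entire (S_differentiable hg p) 0 η
  have h1' : HasSum (fun n : ℕ => tc (S g p) n * η ^ n) (S g p η) := by
    have e : (fun n : ℕ => tc (S g p) n * η ^ n) =
        fun n => ((n.factorial : ℂ)⁻¹ • (η - 0) ^ n • iteratedDeriv n (S g p) 0) := by
      funext n
      rw [tc, smul_eq_mul, smul_eq_mul, sub_zero, div_eq_inv_mul]
      ring
    rw [e]
    exact h1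
  have hinj : Function.Injective (fun m : ℕ => 2 * m) := fun a b h => by
    dsimp only at h; omega
  refine (Function.Injective.hasSum_iff hinj ?_).mpr h1'
  intro n hn
  have hodd : ∃ m, n = 2 * m + 1 := by
    rcases Nat.even_or_odd' n with ⟨m, h | h⟩
    · exact absurd ⟨m, h.symm⟩ hn
    · exact ⟨m, h⟩
  obtain ⟨m, rfl⟩ := hodd
  rw [tc_odd, zero_mul]

/-- Cauchy's estimate -/
theorem tc_le {f : ℂ → ℂ} (hf : Differentiable ℂ f) {r K : ℝ} (hr : 0 < r)
    (h : ∀ η : ℂ, ‖η‖ = r → ‖f η‖ ≤ K) (n : ℕ) : ‖tc f n‖ ≤ K / r ^ n := by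
  have h1 := Complex.norm_iteratedDeriv_le_of_forall_mem_sphere_norm_le (c := 0) (f := f) n hr
    hf.diffContOnCl (C := K) (fun z hz => h z (by simpa using hz))
  rw [tc, norm_div, Complex.norm_natCast]
  rw [div_le_iff₀ (by positivity)]
  refine h1.trans (le_of_eq ?_)
  ring

/-- the remainder of the Taylor polynomial -/
theorem tay_rem {g : ℂ → ℂ} (hg : Differentiable ℂ g) (p η : ℂ) {K : ℝ} (hη : ‖η‖ ≤ 3)
    (h : ∀ ζ : ℂ, ‖ζ‖ = 6 → ‖S g p ζ‖ ≤ K) (N : ℕ) :
    ‖(∑ m ∈ Finset.range N, tc (S g p) (2 * m) * η ^ (2 * m)) - S g p η‖ ≤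
      2 * K * (1 / 4) ^ N := by
  have hK : 0 ≤ K := (norm_nonneg _).trans (h 6 (by simp))
  have h1 : ∀ m : ℕ, ‖tc (S g p) (2 * m) * η ^ (2 * m)‖ ≤ K * (1 / 4) ^ m := by
    intro m
    rw [norm_mul, norm_pow]
    calc ‖tc (S g p) (2 * m)‖ * ‖η‖ ^ (2 * m) ≤ K / 6 ^ (2 * m) * 3 ^ (2 * m) := by
          gcongr
          exact tc_le (S_differentiable hg p) (by norm_num) h _
      _ = K * (1 / 4) ^ m := by
          rw [div_mul_eq_mul_div, mul_div_assoc, ← div_pow, pow_mul]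
          norm_num
  refine (norm_sub_le_of_geometric_bound_of_hasSum (by norm_num) h1 (tc_hasSum hg p η) N).trans ?_
  have : 0 ≤ K * (1 / 4) ^ N := by positivity
  rw [div_le_iff₀ (by norm_num)]
  nlinarith

/-- growth in a strip: `S` on a disc of radius `6` -/
theorem S_le {g : ℂ → ℂ} {C L R s : ℝ} (hC : 0 ≤ C)
    (h : ∀ z : ℂ, |z.im| ≤ 8 → ‖g z‖ ≤ Real.exp (C * L + C * |z.re|)) (hs : |s| ≤ R) {η : ℂ}
    (hη : ‖η‖ ≤ 6) : ‖S g s η‖ ≤ Real.exp (2 * (C * L + C * (R + 6))) := by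
  have him : |η.im| ≤ 6 := (Complex.abs_im_le_norm η).trans hη
  have hre : |η.re| ≤ 6 := (Complex.abs_re_le_norm η).trans hη
  have e1 : ‖g (s + I * η)‖ ≤ Real.exp (C * L + C * (R + 6)) := by
    refine (h _ ?_).trans ?_
    · simp; linarith
    · apply Real.exp_le_exp.mpr
      have h2 : |((s : ℂ) + I * η).re| ≤ R + 6 := by
        have : ((s : ℂ) + I * η).re = s - η.im := by simp [sub_eq_add_neg]
        rw [this]
        exact (abs_sub _ _).trans (by linarith)
      have := mul_le_mul_of_nonneg_left h2 hC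
      linarith
  have e2 : ‖g (s - I * η)‖ ≤ Real.exp (C * L + C * (R + 6)) := by
    refine (h _ ?_).trans ?_
    · simp; linarith
    · apply Real.exp_le_exp.mpr
      have h2 : |((s : ℂ) - I * η).re| ≤ R + 6 := by
        have : ((s : ℂ) - I * η).re = s + η.im := by simp
        rw [this]
        exact (abs_add_le _ _).trans (by linarith)
      have := mul_le_mul_of_nonneg_left h2 hC
      linarith
  rw [S, norm_mul]
  calc ‖g (s + I * η)‖ * ‖g (s - I * η)‖ ≤
      Real.exp (C * L + C * (R + 6)) * Real.exp (C * L + C * (R + 6)) := by gcongr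
    _ = _ := by rw [← Real.exp_add]; congr 1; ring

/-- norm of the Gaussian density -/
theorem norm_ga {v : ℝ} (w : ℂ) :
    ‖ga v w‖ = Real.exp (-((w.re ^ 2 - w.im ^ 2) / (2 * v))) / √(2 * Real.pi * v) := by
  rw [ga, norm_div, Complex.norm_exp, Complex.norm_real, Real.norm_of_nonneg (Real.sqrt_nonneg _)]
  congr 2
  have : -(w ^ 2) / (2 * (v : ℂ)) = ((-(w ^ 2)) : ℂ) / ((2 * v : ℝ) : ℂ) := by push_cast; rfl
  rw [this, Complex.div_ofReal_re, Complex.neg_re, pow_two, Complex.mul_re, neg_div]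
  ring_nf

theorem norm_ga_real {v : ℝ} (d : ℝ) :
    ‖ga v d‖ = Real.exp (-(d ^ 2 / (2 * v))) / √(2 * Real.pi * v) := by
  rw [norm_ga]; simp

/-- `∫ e^{a d²} |ga v d|` -/
theorem gauss_int {v a : ℝ} (hv : 0 < v) (ha : a < 1 / (2 * v)) :
    Integrable (fun d : ℝ => Real.exp (a * d ^ 2) * ‖ga v d‖) ∧
      ∫ d : ℝ, Real.exp (a * d ^ 2) * ‖ga v d‖ = 1 / √(1 - 2 * a * v) := by
  have e : (fun d : ℝ => Real.exp (a * d ^ 2) * ‖ga v d‖) =
      fun d : ℝ => (√(2 * Real.pi * v))⁻¹ * Real.exp (-(1 / (2 * v) - a) * d ^ 2) := by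
    funext d
    rw [norm_ga_real, div_eq_inv_mul, mul_left_comm, ← Real.exp_add]
    congr 2
    ring
  have hb : 0 < 1 / (2 * v) - a := by linarith
  rw [e]
  refine ⟨(integrable_exp_neg_mul_sq hb).const_mul _, ?_⟩
  rw [integral_const_mul, integral_gaussian]
  rw [← Real.sqrt_inv, ← Real.sqrt_mul (by positivity), one_div √_, ← Real.sqrt_inv]
  congr 1
  have hv' : v ≠ 0 := hv.ne'
  have h1 : 1 - 2 * a * v ≠ 0 := by
    have : (1 / (2 * v) - a) * (2 * v) = 1 - 2 * a * v := by field_simp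
    rw [← this]; positivity
  have h2 : 1 / (2 * v) - a = (1 - 2 * a * v) / (2 * v) := by field_simp
  rw [h2]
  have hpi := Real.pi_ne_zero
  field_simp

/-- a convenient bound of the Gaussian integral -/
theorem gauss_int_le {v a : ℝ} (hv : 0 < v) (ha : 4 * a * v ≤ 1) :
    ∫ d : ℝ, Real.exp (a * d ^ 2) * ‖ga v d‖ ≤ 2 := by
  have h1 : a < 1 / (2 * v) := by
    rw [lt_div_iff₀ (by positivity)]; linarith
  rw [(gauss_int hv h1).2]
  rw [div_le_iff₀ (Real.sqrt_pos.mpr (by linarith))]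
  have h2 : 1 / 2 ≤ √(1 - 2 * a * v) := by
    apply Real.le_sqrt_of_sq_le
    linarith
  linarith

end Pool.Agent.Helper36.LQ
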