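import Pool.Agent.Helper36.LQ.Bas

/-! Packages C0b, C0c. -/

set_option autoImplicit false

open Complex MeasureTheory Filter Topology

namespace Pool.Agent.Helper36.LQ

open Pool.Agent.Helper75.LQ

theorem st_c0c : St_C0c := by
  intro A C g L h η hη R
  filter_upwards [h.up0 (η / 2) (by positivity) (R + 2 * A)] with j hj s m hs
  have hA := h.A0
  have key : ∀ ζ : ℂ, ‖ζ‖ = 2 * A → ‖S (g j) s ζ‖ ≤ Real.exp (L j * (2 * A + η)) := by
    intro ζ hζ
    have him : |ζ.im| ≤ 2 * A := (Complex.abs_im_le_norm ζ).trans hζ.le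
    have hre : |ζ.re| ≤ 2 * A := (Complex.abs_re_le_norm ζ).trans hζ.le
    have e1 : ‖g j (s + I * ζ)‖ ≤ Real.exp (L j * (A + η / 2)) := by
      apply hj
      · have : ((s : ℂ) + I * ζ).re = s - ζ.im := by simp [sub_eq_add_neg]
        rw [this]
        exact (abs_sub _ _).trans (by linarith)
      · simpa using hre
    have e2 : ‖g j (s - I * ζ)‖ ≤ Real.exp (L j * (A + η / 2)) := by
      apply hj
      · have : ((s : ℂ) - I * ζ).re = s + ζ.im := by simp
        rw [this]
        exact (abs_add_le _ _).trans (by linarith)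
      · simpa using hre
    rw [S, norm_mul]
    calc ‖g j (s + I * ζ)‖ * ‖g j (s - I * ζ)‖ ≤
        Real.exp (L j * (A + η / 2)) * Real.exp (L j * (A + η / 2)) := by gcongr
      _ = _ := by rw [← Real.exp_add]; congr 1; ring
  have h1 := tc_le (S_differentiable (h.ent j) s) (by positivity) key (2 * m)
  exact (Complex.abs_re_le_norm _).trans h1

/-- the error of the Taylor polynomial is small -/
theorem ev_small {A C : ℝ} {g : ℕ → ℂ → ℂ} {L : ℕ → ℝ} (h : TS A C g L) (R : ℝ) :
    ∀ᶠ j in atTop, 2 * Real.exp (2 * (C * L j + C * (R + 6))) * (1 / 4) ^ MM C L j ≤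
      Real.exp (-L j) ∧ 1 ≤ L j := by
  have hC := h.C1
  filter_upwards [h.lim.eventually_ge_atTop 1,
    h.lim.eventually_ge_atTop (1 + 2 * C * (R + 6))] with j h1 h2
  refine ⟨?_, h1⟩
  have hN : 2 * C * L j ≤ MM C L j := Nat.le_ceil _
  have hl4 : 1.38 ≤ Real.log 4 := by
    have : (4 : ℝ) = 2 ^ 2 := by norm_num
    rw [this, Real.log_pow]
    have := Real.log_two_gt_d9
    push_cast; linarith
  have h3 : (1 / 4 : ℝ) ^ MM C L j ≤ Real.exp (-(2.76 * (C * L j))) := by
    rw [one_div, inv_pow, Real.exp_neg]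
    apply inv_anti₀ (Real.exp_pos _)
    rw [← Real.exp_log (show (0 : ℝ) < 4 by norm_num), ← Real.exp_nat_mul]
    apply Real.exp_le_exp.mpr
    calc 2.76 * (C * L j) = 2 * C * L j * 1.38 := by ring
      _ ≤ MM C L j * Real.log 4 := by gcongr
  have h4 : (2 : ℝ) ≤ Real.exp 1 := by
    have := Real.exp_one_gt_d9
    linarith
  calc 2 * Real.exp (2 * (C * L j + C * (R + 6))) * (1 / 4) ^ MM C L j
      ≤ Real.exp 1 * Real.exp (2 * (C * L j + C * (R + 6))) * Real.exp (-(2.76 * (C * L j))) := by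
        gcongr
    _ = Real.exp (1 + 2 * (C * L j + C * (R + 6)) + -(2.76 * (C * L j))) := by
        rw [Real.exp_add, Real.exp_add]
    _ ≤ Real.exp (-L j) := by
        apply Real.exp_le_exp.mpr
        have h5 : 10 * L j ≤ C * L j := by gcongr
        nlinarith

theorem st_c0b : St_C0b := by
  intro A C g L h R
  have hC := h.C1
  filter_upwards [ev_small h R, h.strip] with j hsm hst s Y hs hY
  have hrem := tay_rem (h.ent j) (s : ℂ) (Y : ℂ) (K := Real.exp (2 * (C * L j + C * (R + 6))))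
    (by rw [Complex.norm_real]; exact hY) (fun ζ hζ => S_le (by linarith) hst hs hζ.le) (MM C L j)
  have hS : S (g j) s Y = ((‖g j (s + I * Y)‖ ^ 2 : ℝ) : ℂ) := by
    have e : (s : ℂ) - I * Y = (starRingEnd ℂ) (s + I * Y) := by
      rw [map_add, map_mul, Complex.conj_ofReal, Complex.conj_ofReal, Complex.conj_I]; ring
    rw [S, e, h.re, Complex.mul_conj, Complex.normSq_eq_norm_sq]
  have hsum : ((∑ m ∈ Finset.range (MM C L j), tc (S (g j) s) (2 * m) * (Y : ℂ) ^ (2 * m)) -
      S (g j) s Y).re = (∑ m ∈ Finset.range (MM C L j), Lag (g j) s m * Y ^ (2 * m)) -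
        ‖g j (s + I * Y)‖ ^ 2 := by
    rw [Complex.sub_re, hS, Complex.ofReal_re, Complex.re_sum]
    congr 1
    refine Finset.sum_congr rfl fun m _ => ?_
    rw [← Complex.ofReal_pow, Complex.re_mul_ofReal, Lag]
  rw [abs_sub_comm, ← hsum]
  refine (Complex.abs_re_le_norm _).trans (hrem.trans (hsm.1.trans ?_))
  rw [Real.exp_le_one_iff]
  linarith [hsm.2]

end Pool.Agent.Helper36.LQ
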