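import Pool.Agent.Helper36.LQ.Nn

/-! Package C0a. -/

set_option autoImplicit false

open Complex MeasureTheory Filter Topology

namespace Pool.Agent.Helper36.LQ

open Pool.Agent.Helper75.LQ

/-- the error of the Taylor polynomial at `y - i d`, for all real `d` -/
theorem err_le {g : ℂ → ℂ} (hg : Differentiable ℂ g) {C L R : ℝ} (hC : 0 ≤ C)
    (h : ∀ z : ℂ, |z.im| ≤ 8 → ‖g z‖ ≤ Real.exp (C * L + C * |z.re|)) {s y : ℝ} (hs : |s| ≤ R)
    (hy : |y| ≤ 2) (N : ℕ) {δ b : ℝ} (hb : 0 ≤ b)
    (hδ : 2 * Real.exp (2 * (C * L + C * (R + 6))) * (1 / 4) ^ N ≤ δ) (d : ℝ) :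
    ‖S g s (y - I * d) - ∑ m ∈ Finset.range N, tc (S g s) (2 * m) * ((y : ℂ) - I * d) ^ (2 * m)‖ ≤
      δ + (1 + N) * Real.exp (2 * (C * L + C * (R + 6))) * Real.exp (-b) *
        Real.exp ((N + C + b) * d ^ 2) := by
  have hδ0 : 0 ≤ δ := le_trans (by positivity) hδ
  have hR : 0 ≤ R := (abs_nonneg s).trans hs
  have hd0 : 0 ≤ |d| := abs_nonneg d
  have hnorm : ‖(y : ℂ) - I * d‖ ^ 2 = y ^ 2 + d ^ 2 := by
    rw [← Complex.normSq_eq_norm_sq, Complex.normSq_apply]
    simp; ring
  have hy2 : y ^ 2 ≤ 4 := by rw [← sq_abs]; have := abs_nonneg y; nlinarith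
  have hS6 : ∀ ζ : ℂ, ‖ζ‖ = 6 → ‖S g s ζ‖ ≤ Real.exp (2 * (C * L + C * (R + 6))) :=
    fun ζ hζ => S_le hC h hs hζ.le
  rcases le_or_gt |d| 1 with hd | hd
  · have h3 : ‖(y : ℂ) - I * d‖ ≤ 3 := by
      have : d ^ 2 ≤ 1 := by rw [← sq_abs]; nlinarith
      apply le_of_sq_le_sq _ (by norm_num)
      rw [hnorm]; linarith
    rw [← norm_neg, neg_sub]
    refine (tay_rem hg (s : ℂ) _ h3 hS6 N).trans (hδ.trans ?_)
    have : 0 ≤ (1 + (N : ℝ)) * Real.exp (2 * (C * L + C * (R + 6))) * Real.exp (-b) *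
        Real.exp ((N + C + b) * d ^ 2) := by positivity
    linarith
  · have hd2 : 1 ≤ d ^ 2 := by rw [← sq_abs]; nlinarith
    set K : ℝ := Real.exp (2 * (C * L + C * (R + 6))) with hK
    have e1 : ‖S g s (y - I * d)‖ ≤ K * Real.exp ((N + C) * d ^ 2) := by
      refine (S_crude hC h s y d (by linarith)).trans ?_
      apply mul_le_mul _ _ (Real.exp_pos _).le (Real.exp_pos _).le
      · apply Real.exp_le_exp.mpr
        have := mul_le_mul_of_nonneg_left hs hC
        nlinarith
      · apply Real.exp_le_exp.mpr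
        have : 0 ≤ (N : ℝ) * d ^ 2 := by positivity
        nlinarith
    have e2 : ‖∑ m ∈ Finset.range N, tc (S g s) (2 * m) * ((y : ℂ) - I * d) ^ (2 * m)‖ ≤
        N * (K * Real.exp ((N + C) * d ^ 2)) := by
      refine (norm_sum_le _ _).trans ?_
      have e3 : ∀ m ∈ Finset.range N, ‖tc (S g s) (2 * m) * ((y : ℂ) - I * d) ^ (2 * m)‖ ≤
          K * Real.exp ((N + C) * d ^ 2) := by
        intro m hm
        have hmN : (m : ℝ) ≤ N := by exact_mod_cast (Finset.mem_range.mp hm).le
        rw [norm_mul, norm_pow]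
        have e4 : ‖(y : ℂ) - I * d‖ ^ (2 * m) ≤ 6 ^ (2 * m) * Real.exp ((N + C) * d ^ 2) := by
          rw [pow_mul, hnorm, pow_mul]
          calc (y ^ 2 + d ^ 2) ^ m ≤ (6 ^ 2 * Real.exp (d ^ 2)) ^ m := by
                apply pow_le_pow_left₀ (by positivity)
                have := Real.add_one_le_exp (d ^ 2)
                linarith
            _ = (6 ^ 2) ^ m * Real.exp (m * d ^ 2) := by
                rw [mul_pow, ← Real.exp_nat_mul]
            _ ≤ (6 ^ 2) ^ m * Real.exp ((N + C) * d ^ 2) := by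
                apply mul_le_mul_of_nonneg_left _ (by positivity)
                apply Real.exp_le_exp.mpr
                apply mul_le_mul_of_nonneg_right _ (by positivity)
                linarith
        calc ‖tc (S g s) (2 * m)‖ * ‖(y : ℂ) - I * d‖ ^ (2 * m) ≤
            K / 6 ^ (2 * m) * (6 ^ (2 * m) * Real.exp ((N + C) * d ^ 2)) := by
              apply mul_le_mul (tc_le (S_differentiable hg s) (by norm_num) hS6 _) e4
                (by positivity) (by positivity)
          _ = K * Real.exp ((N + C) * d ^ 2) := by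
              rw [← mul_assoc, div_mul_cancel₀ _ (by positivity)]
      refine (Finset.sum_le_sum e3).trans ?_
      rw [Finset.sum_const, Finset.card_range, nsmul_eq_mul]
    have e5 : Real.exp ((N + C) * d ^ 2) ≤ Real.exp (-b) * Real.exp ((N + C + b) * d ^ 2) := by
      rw [← Real.exp_add]
      apply Real.exp_le_exp.mpr
      have := mul_le_mul_of_nonneg_left hd2 hb
      nlinarith
    calc ‖S g s (y - I * d) - ∑ m ∈ Finset.range N, tc (S g s) (2 * m) *
          ((y : ℂ) - I * d) ^ (2 * m)‖ ≤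
        K * Real.exp ((N + C) * d ^ 2) + N * (K * Real.exp ((N + C) * d ^ 2)) :=
          (norm_sub_le _ _).trans (add_le_add e1 e2)
      _ = (1 + N) * K * Real.exp ((N + C) * d ^ 2) := by ring
      _ ≤ (1 + N) * K * (Real.exp (-b) * Real.exp ((N + C + b) * d ^ 2)) := by gcongr
      _ ≤ δ + (1 + N) * K * Real.exp (-b) * Real.exp ((N + C + b) * d ^ 2) := by
          rw [← mul_assoc]; linarith

theorem four_le_exp_two : (4 : ℝ) ≤ Real.exp 2 := by
  have := Real.exp_one_gt_d9
  have h5 : Real.exp 2 = Real.exp 1 * Real.exp 1 := by rw [← Real.exp_add]; norm_num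
  rw [h5]; nlinarith

theorem fin_small {C L R c N : ℝ} (hL1 : 2 ≤ L) (hL2 : 2 + 2 * C * (R + 6) ≤ L)
    (hN2 : N ≤ 2 * C * L + 1) (hcLC : 100 * (C * L) ≤ c * L) (hCL : 10 * L ≤ C * L) :
    Real.exp (-L) * 2 + (1 + N) * Real.exp (2 * (C * L + C * (R + 6))) *
      Real.exp (-(c * L / 8)) * 2 ≤ 1 := by
  have hδ2 : Real.exp (-L) * 2 ≤ 1 / 2 := by
    have h1 : Real.exp (-L) ≤ Real.exp (-2) := Real.exp_le_exp.mpr (by linarith)
    have h2 : Real.exp (-2) ≤ 1 / 4 := by
      rw [Real.exp_neg, one_div]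
      exact inv_anti₀ (by norm_num) four_le_exp_two
    linarith
  have hN3 : 1 + N ≤ Real.exp (2 * (C * L)) := by
    have h1 := Real.quadratic_le_exp_of_nonneg (x := 2 * (C * L)) (by nlinarith)
    have : 1 ≤ C * L := by linarith
    nlinarith
  have h5 : 4 * ((1 + N) * Real.exp (2 * (C * L + C * (R + 6))) * Real.exp (-(c * L / 8))) ≤ 1 := by
    calc 4 * ((1 + N) * Real.exp (2 * (C * L + C * (R + 6))) * Real.exp (-(c * L / 8)))
        = 4 * (1 + N) * (Real.exp (2 * (C * L + C * (R + 6))) * Real.exp (-(c * L / 8))) := by ring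
      _ ≤ Real.exp 2 * Real.exp (2 * (C * L)) *
          (Real.exp (2 * (C * L + C * (R + 6))) * Real.exp (-(c * L / 8))) := by
          apply mul_le_mul_of_nonneg_right _ (by positivity)
          calc 4 * (1 + N) ≤ 4 * Real.exp (2 * (C * L)) := by linarith
            _ ≤ Real.exp 2 * Real.exp (2 * (C * L)) :=
              mul_le_mul_of_nonneg_right four_le_exp_two (Real.exp_pos _).le
      _ = Real.exp (2 + 2 * (C * L) + (2 * (C * L + C * (R + 6)) + -(c * L / 8))) := by
          rw [Real.exp_add, Real.exp_add, Real.exp_add]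
      _ ≤ 1 := by
          rw [Real.exp_le_one_iff]
          linarith
  linarith

theorem st_c0a (hB : St_B1) : St_C0a := by
  intro A C g L h
  have hC := h.C1
  refine ⟨100 * C, fun c hc R => ?_⟩
  filter_upwards [ev_small h R, h.strip, h.lim.eventually_ge_atTop 2,
    h.lim.eventually_ge_atTop (2 + 2 * C * (R + 6))] with j hsm hst hL1 hL2 s y hs hy
  have hc0 : 0 < c := by linarith
  have hL0 : 0 < L j := by linarith
  obtain ⟨v, hv⟩ : ∃ v, v = vv c L j / 2 := ⟨_, rfl⟩
  rw [← hv]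
  have hv1 : v = 1 / (2 * (c * L j)) := by rw [hv, vv]; field_simp
  have hcL : 0 < c * L j := by positivity
  have hv0 : 0 < v := by rw [hv1]; positivity
  have hcLC : 100 * (C * L j) ≤ c * L j := by
    have := mul_le_mul_of_nonneg_right hc hL0.le
    linarith
  have hCL : 10 * L j ≤ C * L j := mul_le_mul_of_nonneg_right hC hL0.le
  obtain ⟨N, hN⟩ : ∃ N, N = MM C L j := ⟨_, rfl⟩
  rw [← hN] at hsm ⊢
  have hN2 : (N : ℝ) ≤ 2 * C * L j + 1 := by
    rw [hN, MM]
    exact (Nat.ceil_lt_add_one (by positivity)).le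
  have hCL' : C ≤ C * L j := le_mul_of_one_le_right (by linarith) (by linarith)
  have hv4 : v * (c * L j) = 1 / 2 := by rw [hv1]; field_simp
  have hCv : 4 * C * v ≤ 1 := by
    have : C * v ≤ c * L j * v := by gcongr; linarith
    nlinarith
  obtain ⟨b, hb⟩ : ∃ b, b = c * L j / 8 := ⟨_, rfl⟩
  have hb0 : 0 ≤ b := by rw [hb]; positivity
  have hbv : 4 * (N + C + b) * v ≤ 1 := by
    have h1 : (N : ℝ) + C + b ≤ c * L j / 2 := by rw [hb]; nlinarith
    have h2 : (N + C + b) * v ≤ (c * L j / 2) * v := mul_le_mul_of_nonneg_right h1 hv0.le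
    nlinarith
  have hbv' : N + C + b < 1 / (2 * v) := by
    rw [lt_div_iff₀ (by positivity)]; linarith
  -- the integral of the error
  have hi1 := nn_integrable (h.ent j) (by linarith) hst hv0 hCv s y (by linarith)
  have hi2 : ∀ m ∈ Finset.range N, Integrable
      (fun d : ℝ => tc (S (g j) s) (2 * m) * (((y : ℂ) - I * d) ^ (2 * m) * ga v d)) :=
    fun m _ => ((hB v hv0 y (2 * m)).1).const_mul _
  have hint : nn (g j) v s y - ∑ m ∈ Finset.range N, tc (S (g j) s) (2 * m) * hn v y (2 * m) =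
      ∫ d : ℝ, (S (g j) s (y - I * d) - ∑ m ∈ Finset.range N, tc (S (g j) s) (2 * m) *
        ((y : ℂ) - I * d) ^ (2 * m)) * ga v d := by
    have e1 : (fun d : ℝ => (S (g j) s (y - I * d) - ∑ m ∈ Finset.range N,
        tc (S (g j) s) (2 * m) * ((y : ℂ) - I * d) ^ (2 * m)) * ga v d) =
        fun d : ℝ => S (g j) s (y - I * d) * ga v d - ∑ m ∈ Finset.range N,
          tc (S (g j) s) (2 * m) * (((y : ℂ) - I * d) ^ (2 * m) * ga v d) := by
      funext d
      rw [sub_mul, Finset.sum_mul]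
      congr 1
      exact Finset.sum_congr rfl fun m _ => by ring
    rw [e1, integral_sub hi1 (integrable_finsetSum _ hi2), integral_finsetSum _ hi2, nn]
    congr 1
    refine Finset.sum_congr rfl fun m _ => ?_
    rw [integral_const_mul, hn]
  obtain ⟨δ, hδ⟩ : ∃ δ, δ = Real.exp (-L j) := ⟨_, rfl⟩
  have hsmall : ‖nn (g j) v s y - ∑ m ∈ Finset.range N, tc (S (g j) s) (2 * m) * hn v y (2 * m)‖ ≤
      δ * 2 + (1 + N) * Real.exp (2 * (C * L j + C * (R + 6))) * Real.exp (-b) * 2 := by
    rw [hint]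
    have hg0 := gauss_int (a := 0) hv0 (by positivity)
    have hg1 := gauss_int (a := N + C + b) hv0 hbv'
    refine (norm_integral_le_of_norm_le ((hg0.1.const_mul δ).add (hg1.1.const_mul
      ((1 + N) * Real.exp (2 * (C * L j + C * (R + 6))) * Real.exp (-b))))
      (Eventually.of_forall fun d => ?_)).trans ?_
    · rw [norm_mul]
      refine (mul_le_mul_of_nonneg_right (err_le (h.ent j) (by linarith) hst hs hy N hb0
        (hsm.1.trans hδ.ge) d) (norm_nonneg _)).trans (le_of_eq ?_)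
      simp only [zero_mul, Real.exp_zero, one_mul, Pi.add_apply]
      ring
    · refine (le_of_eq (integral_add (hg0.1.const_mul δ) (hg1.1.const_mul
        ((1 + N) * Real.exp (2 * (C * L j + C * (R + 6))) * Real.exp (-b))))).trans ?_
      rw [integral_const_mul, integral_const_mul]
      apply add_le_add
      · apply mul_le_mul_of_nonneg_left (gauss_int_le hv0 (by norm_num)) (by rw [hδ]; positivity)
      · apply mul_le_mul_of_nonneg_left (gauss_int_le hv0 hbv) (by positivity)
  have hre : (nn (g j) v s y - ∑ m ∈ Finset.range N, tc (S (g j) s) (2 * m) *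
      hn v y (2 * m)).re = (nn (g j) v s y).re -
      ∑ m ∈ Finset.range N, Lag (g j) s m * (hn v y (2 * m)).re := by
    rw [Complex.sub_re, Complex.re_sum]
    congr 1
    refine Finset.sum_congr rfl fun m _ => ?_
    rw [Complex.mul_re, (hB v hv0 y (2 * m)).2, mul_zero, sub_zero, Lag]
  rw [← hre]
  refine (Complex.abs_re_le_norm _).trans (hsmall.trans ?_)
  rw [hδ, hb]
  exact fin_small hL1 hL2 hN2 hcLC hCL

end Pool.Agent.Helper36.LQ
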