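import Pool.Agent.Helper36.LQ.C0a

/-! Package C1. -/

set_option autoImplicit false

open Complex MeasureTheory Filter Topology

namespace Pool.Agent.Helper36.LQ

open Pool.Agent.Helper75.LQ

/-- a sum with few terms which are not nonnegative -/
theorem sum_ge {N : ℕ} {t : ℕ → ℝ} {x E : ℝ} (hx : 0 ≤ x) (hE : 0 ≤ E)
    (h1 : ∀ m ∈ Finset.range N, x ≤ m → 0 ≤ t m)
    (h2 : ∀ m ∈ Finset.range N, (m : ℝ) < x → -E ≤ t m) :
    -((x + 1) * E) ≤ ∑ m ∈ Finset.range N, t m := by
  classical
  rw [← Finset.sum_filter_add_sum_filter_not (Finset.range N) (fun m : ℕ => (m : ℝ) < x)]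
  have e1 : 0 ≤ ∑ m ∈ (Finset.range N).filter (fun m : ℕ => ¬ (m : ℝ) < x), t m := by
    apply Finset.sum_nonneg
    intro m hm
    obtain ⟨h3, h4⟩ := Finset.mem_filter.mp hm
    exact h1 m h3 (not_lt.mp h4)
  have e2 : -((x + 1) * E) ≤ ∑ m ∈ (Finset.range N).filter (fun m : ℕ => (m : ℝ) < x), t m := by
    calc -((x + 1) * E) ≤ ∑ m ∈ (Finset.range N).filter (fun m : ℕ => (m : ℝ) < x), (-E) := by
          rw [Finset.sum_const, nsmul_eq_mul, mul_neg]
          apply neg_le_neg
          apply mul_le_mul_of_nonneg_right _ hE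
          have h3 : (Finset.range N).filter (fun m : ℕ => (m : ℝ) < x) ⊆ Finset.range ⌈x⌉₊ := by
            intro m hm
            rw [Finset.mem_range, Nat.lt_ceil]
            exact (Finset.mem_filter.mp hm).2
          have h4 := Finset.card_le_card h3
          rw [Finset.card_range] at h4
          have h5 : (((Finset.range N).filter (fun m : ℕ => (m : ℝ) < x)).card : ℝ) ≤ ⌈x⌉₊ := by
            exact_mod_cast h4
          exact h5.trans (Nat.ceil_lt_add_one hx).le
      _ ≤ _ := by
          apply Finset.sum_le_sum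
          intro m hm
          obtain ⟨h3, h4⟩ := Finset.mem_filter.mp hm
          exact h2 m h3 h4
  linarith

theorem st_c1 (hB1 : St_B1) (hB2 : St_B2) : St_C1 := by
  intro A C g L h
  have hC := h.C1
  have hA0 := h.A0
  have hA1 := h.A1
  obtain ⟨c1, hc1⟩ := st_c0a hB1 A C g L h
  refine ⟨max c1 (max 1 ((2 * C + 1) / A ^ 2)), fun c hc η hη R => ?_⟩
  have hcc1 : c1 ≤ c := (le_max_left _ _).trans hc
  have hc0 : 0 < c := by
    have : (1 : ℝ) ≤ c := (le_max_left _ _).trans ((le_max_right _ _).trans hc)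
    linarith
  have hcA : 2 * C + 1 ≤ c * A ^ 2 := by
    have : (2 * C + 1) / A ^ 2 ≤ c := (le_max_right _ _).trans ((le_max_right _ _).trans hc)
    rwa [div_le_iff₀ (by positivity)] at this
  have hlA : 0 ≤ Real.log (1 / A) := Real.log_nonneg (by
    rw [le_div_iff₀ hA0]; linarith)
  obtain ⟨κ, hκ⟩ : ∃ κ, κ = η / (8 * (Real.log (1 / A) + 1)) := ⟨_, rfl⟩
  have hκ0 : 0 < κ := by rw [hκ]; positivity
  have hκ1 : κ * Real.log (1 / A) ≤ η / 8 := by
    have e : κ * (Real.log (1 / A) + 1) = η / 8 := by rw [hκ]; field_simp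
    nlinarith
  have hκ2 : κ ≤ η / 8 := by
    have e : κ * (Real.log (1 / A) + 1) = η / 8 := by rw [hκ]; field_simp
    nlinarith
  filter_upwards [hc1 c hcc1 R, st_c0c A C g L h (η / 4) (by positivity) R, h.pos κ hκ0 R,
    h.lim.eventually_ge_atTop 1, h.lim.eventually_ge_atTop (4 / η)] with j hj1 hj2 hj3 hL1 hL2
    s y hs hy1 hy2
  have hL0 : 0 < L j := by linarith
  have hy0 : 0 < y := by linarith
  have habs := hj1 s y hs (by rw [abs_of_pos hy0]; exact hy2)
  obtain ⟨v, hv⟩ : ∃ v, v = vv c L j / 2 := ⟨_, rfl⟩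
  rw [← hv] at habs ⊢
  have hcL : 0 < c * L j := by positivity
  have hv1 : v = 1 / (2 * (c * L j)) := by rw [hv, vv]; field_simp
  have hv0 : 0 < v := by rw [hv1]; positivity
  obtain ⟨N, hN⟩ : ∃ N, N = MM C L j := ⟨_, rfl⟩
  rw [← hN] at habs
  have hN2 : (N : ℝ) ≤ 2 * C * L j + 1 := by
    rw [hN, MM]
    exact (Nat.ceil_lt_add_one (by positivity)).le
  -- the Hermite numbers
  have hh : ∀ m ∈ Finset.range N, 0 < (hn v y (2 * m)).re ∧ (hn v y (2 * m)).re ≤ y ^ (2 * m) := by
    intro m hm
    apply hB2 v y hv0 hy0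
    have hmN : (m : ℝ) ≤ N := by exact_mod_cast (Finset.mem_range.mp hm).le
    have h5 : (2 * A) ^ 2 ≤ y ^ 2 := by gcongr
    refine le_trans ?_ h5
    rw [hv1]
    push_cast
    have e : 4 * (1 / (2 * (c * L j))) * (2 * (m : ℝ)) = 4 * m / (c * L j) := by
      field_simp
    rw [e, div_le_iff₀ hcL]
    have h6 : (2 * C + 1) * L j ≤ c * A ^ 2 * L j := by gcongr
    nlinarith
  have hE : ∀ m ∈ Finset.range N, (m : ℝ) < κ * L j →
      -Real.exp (L j * (2 * A + η / 2)) ≤ Lag (g j) s m * (hn v y (2 * m)).re := by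
    intro m hm hmκ
    obtain ⟨h5, h6⟩ := hh m hm
    have h7 := hj2 s m hs
    have h8 : |Lag (g j) s m * (hn v y (2 * m)).re| ≤ Real.exp (L j * (2 * A + η / 2)) := by
      rw [abs_mul, abs_of_pos h5]
      calc |Lag (g j) s m| * (hn v y (2 * m)).re ≤
          Real.exp (L j * (2 * A + η / 4)) / (2 * A) ^ (2 * m) * y ^ (2 * m) := by
            apply mul_le_mul h7 h6 h5.le (by positivity)
        _ = Real.exp (L j * (2 * A + η / 4)) * (y / (2 * A)) ^ (2 * m) := by
            rw [div_pow]; ring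
        _ ≤ Real.exp (L j * (2 * A + η / 4)) * (1 / A) ^ (2 * m) := by
            apply mul_le_mul_of_nonneg_left _ (Real.exp_pos _).le
            apply pow_le_pow_left₀ (by positivity)
            rw [div_le_div_iff₀ (by positivity) hA0]
            nlinarith
        _ = Real.exp (L j * (2 * A + η / 4)) * Real.exp (2 * m * Real.log (1 / A)) := by
            congr 1
            rw [← Real.exp_log (show 0 < 1 / A by positivity), ← Real.exp_nat_mul,
              Real.exp_log (show 0 < 1 / A by positivity)]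
            push_cast
            ring_nf
        _ ≤ Real.exp (L j * (2 * A + η / 4)) * Real.exp (L j * (η / 4)) := by
            apply mul_le_mul_of_nonneg_left _ (Real.exp_pos _).le
            apply Real.exp_le_exp.mpr
            calc 2 * (m : ℝ) * Real.log (1 / A) ≤ 2 * (κ * L j) * Real.log (1 / A) := by gcongr
              _ = L j * (2 * (κ * Real.log (1 / A))) := by ring
              _ ≤ L j * (η / 4) := by
                  apply mul_le_mul_of_nonneg_left _ hL0.le
                  linarith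
        _ = Real.exp (L j * (2 * A + η / 2)) := by
            rw [← Real.exp_add]; congr 1; ring
    exact (abs_le.mp h8).1
  have hsum := sum_ge (N := N) (t := fun m => Lag (g j) s m * (hn v y (2 * m)).re)
    (x := κ * L j) (E := Real.exp (L j * (2 * A + η / 2))) (by positivity) (Real.exp_pos _).le
    (fun m hm hκm => mul_nonneg (hj3 s hs m hκm) (hh m hm).1.le) hE
  have hfin : (κ * L j + 1) * Real.exp (L j * (2 * A + η / 2)) + 1 ≤
      Real.exp (L j * (2 * A + η)) := by
    have h1 : 1 ≤ Real.exp (L j * (2 * A + η / 2)) := Real.one_le_exp (by positivity)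
    have h2 : κ * L j + 2 ≤ Real.exp (L j * (η / 2)) := by
      have h3 := Real.add_one_le_exp (L j * (η / 2))
      have h4 : 4 ≤ L j * η := by rwa [div_le_iff₀ hη] at hL2
      have h5 : κ * L j ≤ η / 8 * L j := by gcongr
      nlinarith
    calc (κ * L j + 1) * Real.exp (L j * (2 * A + η / 2)) + 1 ≤
        (κ * L j + 2) * Real.exp (L j * (2 * A + η / 2)) := by linarith
      _ ≤ Real.exp (L j * (η / 2)) * Real.exp (L j * (2 * A + η / 2)) := by gcongr
      _ = Real.exp (L j * (2 * A + η)) := by rw [← Real.exp_add]; congr 1; ring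
  have h9 := (abs_le.mp habs).1
  linarith

end Pool.Agent.Helper36.LQ
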