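import Pool.Agent.Helper36.LQ.Nn

/-! Package C3. -/

set_option autoImplicit false

open Complex MeasureTheory Filter Topology

namespace Pool.Agent.Helper36.LQ

open Pool.Agent.Helper75.LQ

theorem st_c3 : St_C3 := by
  intro A C g L h
  have hC := h.C1
  refine ⟨100 * C, fun c hc R => ?_⟩
  filter_upwards [h.strip, h.lim.eventually_ge_atTop 1,
    h.lim.eventually_ge_atTop (1 + 2 * C * R + 2 * C + C)] with j hst hL1 hL2 s y b σ hs hy hb hσ
  have hc0 : 0 < c := by linarith
  have hL0 : 0 < L j := by linarith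
  obtain ⟨v, hv⟩ : ∃ v, v = vv c L j / 2 := ⟨_, rfl⟩
  rw [← hv]
  have hv1 : v = 1 / (2 * (c * L j)) := by rw [hv, vv]; field_simp
  have hcL : 0 < c * L j := by positivity
  have hv0 : 0 < v := by rw [hv1]; positivity
  have hcL100 : 1000 * L j ≤ c * L j := by nlinarith
  have hCv : 4 * C * v ≤ 1 := by
    rw [hv1, mul_one_div, div_le_one (by positivity)]
    nlinarith
  obtain ⟨K, hK⟩ : ∃ K : ℝ, K = 2 * Real.exp (2 * C * L j + 2 * C * R + 2 * C) := ⟨_, rfl⟩
  have hK0 : 0 < K := by rw [hK]; positivity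
  -- pointwise bound
  have hpt : ∀ a : ℝ, 1 < |a| → ‖nn (g j) v (s - a) y * ga v (a + b + I * σ)‖ ≤
      (K * Real.exp (-(c * L j / 16))) * (Real.exp ((5 / 8 * (c * L j) + C) * a ^ 2) * ‖ga v a‖) := by
    intro a ha
    have ha2 : 1 ≤ a ^ 2 := by
      rw [← sq_abs]; nlinarith
    have e1 : ‖nn (g j) v (s - a : ℝ) y‖ ≤ K * Real.exp (C * a ^ 2) := by
      refine (nn_le (by linarith) hst hv0 hCv (s - a) y (by linarith)).trans ?_
      rw [hK, mul_assoc 2 (Real.exp _) (Real.exp _), ← Real.exp_add]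
      apply mul_le_mul_of_nonneg_left _ (by norm_num)
      apply Real.exp_le_exp.mpr
      have h3 : |s - a| ≤ R + |a| := (abs_sub _ _).trans (by linarith)
      have h5 : 2 * |a| ≤ 1 + a ^ 2 := by
        rw [← sq_abs a]
        nlinarith [sq_nonneg (|a| - 1)]
      have h6 : C * |s - a| ≤ C * (R + |a|) := mul_le_mul_of_nonneg_left h3 (by linarith)
      have h8 : C * (2 * |a|) ≤ C * (1 + a ^ 2) := mul_le_mul_of_nonneg_left h5 (by linarith)
      linarith
    have e2 : ‖ga v (a + b + I * σ)‖ ≤ Real.exp (-(c * L j / 16)) *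
        (Real.exp (5 / 8 * (c * L j) * a ^ 2) * ‖ga v a‖) := by
      rw [norm_ga, norm_ga_real]
      have hre : ((a : ℂ) + b + I * σ).re = a + b := by simp
      have him : ((a : ℂ) + b + I * σ).im = σ := by simp
      have h2v : 2 * v = 1 / (c * L j) := by rw [hv1]; field_simp
      have e3 : Real.exp (-(c * L j / 16)) *
        (Real.exp (5 / 8 * (c * L j) * a ^ 2) * (Real.exp (-(a ^ 2 / (2 * v))) / √(2 * Real.pi * v))) =
        Real.exp (-(c * L j / 16) + (5 / 8 * (c * L j) * a ^ 2 + -(a ^ 2 / (2 * v)))) /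
          √(2 * Real.pi * v) := by
        rw [Real.exp_add, Real.exp_add]; ring
      rw [hre, him, e3]
      apply div_le_div_of_nonneg_right _ (Real.sqrt_nonneg _)
      apply Real.exp_le_exp.mpr
      rw [h2v, div_div_eq_mul_div, div_one, div_div_eq_mul_div, div_one]
      -- the quadratic inequality
      have hb2 : -(1 / 2 * |a|) ≤ 2 * a * b := by
        have h3 : |2 * a * b| ≤ 1 / 2 * |a| := by
          rw [abs_mul, abs_mul, abs_two]
          have := abs_nonneg a
          nlinarith
        linarith [neg_abs_le (2 * a * b)]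
      have hσ2 : σ ^ 2 ≤ 1 / 16 := by
        rw [← sq_abs]
        have := abs_nonneg σ
        nlinarith
      have ha3 : |a| ≤ a ^ 2 := by
        rw [← sq_abs]; nlinarith
      have hq : 3 / 8 * a ^ 2 + 1 / 16 * 1 ≤ (a + b) ^ 2 - σ ^ 2 + 0 * a := by
        have hb3 : 0 ≤ b ^ 2 := sq_nonneg b
        have e4 : (a + b) ^ 2 = a ^ 2 + 2 * a * b + b ^ 2 := by ring
        rw [e4]
        linarith
      have h9 := mul_le_mul_of_nonneg_left hq hcL.le
      linarith
    rw [norm_mul]
    have hcast : ((s - a : ℝ)) = s - a := rfl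
    calc ‖nn (g j) v (s - a) y‖ * ‖ga v (a + b + I * σ)‖ ≤
        (K * Real.exp (C * a ^ 2)) * (Real.exp (-(c * L j / 16)) *
        (Real.exp (5 / 8 * (c * L j) * a ^ 2) * ‖ga v a‖)) := by
          apply mul_le_mul e1 e2 (norm_nonneg _) (by positivity)
      _ = _ := by
          rw [add_mul, Real.exp_add]
          ring
  have hint : (5 / 8 * (c * L j) + C) < 1 / (2 * v) := by
    have h2v : 1 / (2 * v) = c * L j := by rw [hv1]; field_simp
    rw [h2v]
    nlinarith
  have hgi := gauss_int hv0 hint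
  have hgi2 : ∫ a : ℝ, Real.exp ((5 / 8 * (c * L j) + C) * a ^ 2) * ‖ga v a‖ ≤ 2 := by
    rw [hgi.2]
    have h3 : 2 * (5 / 8 * (c * L j) + C) * v ≤ 3 / 4 := by
      rw [hv1, mul_one_div, div_le_iff₀ (by positivity)]
      nlinarith
    rw [div_le_iff₀ (Real.sqrt_pos.mpr (by linarith))]
    have h2 : 1 / 2 ≤ √(1 - 2 * (5 / 8 * (c * L j) + C) * v) := by
      apply Real.le_sqrt_of_sq_le
      linarith
    linarith
  have hms : MeasurableSet {a : ℝ | 1 < |a|} := measurableSet_lt measurable_const measurable_norm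
  have hfin : (K * Real.exp (-(c * L j / 16))) * 2 ≤ 1 := by
    have h4 : (4 : ℝ) ≤ Real.exp 2 := by
      have := Real.exp_one_gt_d9
      have h5 : Real.exp 2 = Real.exp 1 * Real.exp 1 := by rw [← Real.exp_add]; norm_num
      rw [h5]; nlinarith
    calc (K * Real.exp (-(c * L j / 16))) * 2 = 4 * Real.exp (2 * C * L j + 2 * C * R + 2 * C +
          -(c * L j / 16)) := by
          rw [Real.exp_add (2 * C * L j + 2 * C * R + 2 * C) (-(c * L j / 16)), hK]; ring
      _ ≤ Real.exp 2 * Real.exp (2 * C * L j + 2 * C * R + 2 * C + -(c * L j / 16)) := by gcongr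
      _ = Real.exp (2 + (2 * C * L j + 2 * C * R + 2 * C + -(c * L j / 16))) := by
          rw [← Real.exp_add]
      _ ≤ 1 := by
          rw [Real.exp_le_one_iff]
          have h5 : 100 * C * L j ≤ c * L j := by gcongr
          have h6 : 10 * L j ≤ C * L j := by gcongr
          nlinarith
  calc ∫ a in {a : ℝ | 1 < |a|}, ‖nn (g j) v (s - a) y * ga v (a + b + I * σ)‖
      ≤ ∫ a in {a : ℝ | 1 < |a|}, (K * Real.exp (-(c * L j / 16))) *
          (Real.exp ((5 / 8 * (c * L j) + C) * a ^ 2) * ‖ga v a‖) := by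
        apply integral_mono_of_nonneg (Eventually.of_forall fun a => norm_nonneg _)
        · exact (hgi.1.const_mul _).integrableOn
        · rw [EventuallyLE, ae_restrict_iff' hms]
          exact Eventually.of_forall fun a ha => hpt a ha
    _ ≤ ∫ a : ℝ, (K * Real.exp (-(c * L j / 16))) *
          (Real.exp ((5 / 8 * (c * L j) + C) * a ^ 2) * ‖ga v a‖) := by
        apply setIntegral_le_integral (hgi.1.const_mul _)
        exact Eventually.of_forall fun a => by positivity
    _ ≤ (K * Real.exp (-(c * L j / 16))) * 2 := by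
        rw [integral_const_mul]
        exact mul_le_mul_of_nonneg_left hgi2 (by positivity)
    _ ≤ 1 := hfin

end Pool.Agent.Helper36.LQ
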