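import Pool.Agent.Helper75.LQ.Sts

/-! Package G1: three lines theorem in a long rectangle for `1 / f`. -/

set_option autoImplicit false

open Complex MeasureTheory Filter Topology

namespace Pool.Agent.Helper36.LQ

open Pool.Agent.Helper75.LQ

theorem st_g1 : St_G1 := by
  intro y0 y1 y2 u0 u2 B η h01 h12 hη
  obtain ⟨Y, hY⟩ : ∃ Y : ℝ, Y = y0 ^ 2 + y2 ^ 2 := ⟨_, rfl⟩
  have hY0 : 0 ≤ Y := by rw [hY]; positivity
  obtain ⟨ε, hε⟩ : ∃ ε : ℝ, ε = η / (Y + 1) := ⟨_, rfl⟩
  have hε0 : 0 < ε := by rw [hε]; positivity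
  have hεY : ε * Y ≤ η := by
    rw [hε, div_mul_eq_mul_div, div_le_iff₀ (by positivity)]
    nlinarith
  obtain ⟨Q, hQ⟩ : ∃ Q : ℝ, Q = |u0| + |u2| + |B| + 1 := ⟨_, rfl⟩
  have hQ0 : 0 < Q := by rw [hQ]; positivity
  obtain ⟨R, hR⟩ : ∃ R : ℝ, R = √(Q / ε) := ⟨_, rfl⟩
  have hR0 : 0 < R := by rw [hR]; exact Real.sqrt_pos.mpr (by positivity)
  have hR2 : ε * R ^ 2 = Q := by rw [hR, Real.sq_sqrt (by positivity)]; field_simp
  have hD : 0 < y2 - y0 := by linarith
  -- the linear function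
  obtain ⟨lam, hlam⟩ : ∃ lam : ℝ, lam = (u2 - u0) / (y2 - y0) := ⟨_, rfl⟩
  obtain ⟨α, hα⟩ : ∃ α : ℝ, α = u0 - lam * y0 - ε * Y := ⟨_, rfl⟩
  have hlD : lam * (y2 - y0) = u2 - u0 := by rw [hlam]; field_simp
  have hl0 : α + lam * y0 = u0 - ε * Y := by rw [hα]; ring
  have hl2 : α + lam * y2 = u2 - ε * Y := by rw [hα]; linarith
  have hl1 : α + lam * y1 = (y2 - y1) / (y2 - y0) * u0 + (y1 - y0) / (y2 - y0) * u2 - ε * Y := by
    rw [hα, hlam]; field_simp; ring
  have hlb : ∀ y, y0 ≤ y → y ≤ y2 → α + lam * y + ε * Y ≤ |u0| + |u2| := by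
    intro y h1 h2
    have e : (α + lam * y + ε * Y) * (y2 - y0) = (y2 - y) * u0 + (y - y0) * u2 := by
      rw [hα]
      linear_combination (y - y0) * hlD
    have h3 : (y2 - y) * u0 ≤ (y2 - y0) * |u0| := by
      have := le_abs_self u0
      have := abs_nonneg u0
      nlinarith
    have h4 : (y - y0) * u2 ≤ (y2 - y0) * |u2| := by
      have := le_abs_self u2
      have := abs_nonneg u2
      nlinarith
    have h5 : (α + lam * y + ε * Y) * (y2 - y0) ≤ (|u0| + |u2|) * (y2 - y0) := by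
      rw [e]; linarith
    exact le_of_mul_le_mul_right h5 hD
  refine ⟨R, hR0, fun f L hL hf hB h0 h2 => ?_⟩
  set h : ℂ → ℂ := fun z => cexp (L * (α - I * lam * z - ε * z ^ 2)) / f z with hh
  -- the norm of h
  have hnorm : ∀ z : ℂ, ‖h z‖ = Real.exp (L * (α + lam * z.im - ε * z.re ^ 2 + ε * z.im ^ 2)) / ‖f z‖ := by
    intro z
    rw [hh]
    simp only [norm_div, Complex.norm_exp]
    congr 2
    have e : (L : ℂ) * (α - I * lam * z - ε * z ^ 2) =
        ((L : ℝ) : ℂ) * ((α : ℝ) - ((lam : ℝ) : ℂ) * (I * z) - ((ε : ℝ) : ℂ) * z ^ 2) := by ring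
    rw [e, Complex.re_ofReal_mul, Complex.sub_re, Complex.sub_re, Complex.ofReal_re,
      Complex.re_ofReal_mul, Complex.re_ofReal_mul, Complex.I_mul_re, pow_two, Complex.mul_re]
    ring
  have hfpos : ∀ z : ℂ, |z.re| ≤ R → y0 ≤ z.im → z.im ≤ y2 → 0 < ‖f z‖ :=
    fun z h1 h2 h3 => (Real.exp_pos _).trans_le (hB z h1 h2 h3)
  set U : Set ℂ := Set.Ioo (-R) R ×ℂ Set.Ioo y0 y2 with hU
  have hcl : closure U = Set.Icc (-R) R ×ℂ Set.Icc y0 y2 := by
    rw [hU, Complex.closure_reProdIm, closure_Ioo (by linarith), closure_Ioo (by linarith)]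
  have hmem : ∀ z ∈ closure U, |z.re| ≤ R ∧ y0 ≤ z.im ∧ z.im ≤ y2 := by
    intro z hz
    rw [hcl, Complex.mem_reProdIm] at hz
    exact ⟨abs_le.mpr hz.1, hz.2.1, hz.2.2⟩
  have hbd : Bornology.IsBounded U := by
    apply Bornology.IsBounded.reProdIm
    · exact Metric.isBounded_Ioo _ _
    · exact Metric.isBounded_Ioo _ _
  have hdiff : DiffContOnCl ℂ h U := by
    apply DifferentiableOn.diffContOnCl
    intro z hz
    obtain ⟨a1, a2, a3⟩ := hmem z hz
    apply DifferentiableAt.differentiableWithinAt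
    apply DifferentiableAt.div
    · fun_prop
    · exact hf z
    · exact norm_pos_iff.mp (hfpos z a1 a2 a3)
  have hfr : ∀ z ∈ frontier U, ‖h z‖ ≤ 1 := by
    intro z hz
    have hzc : z ∈ closure U := frontier_subset_closure hz
    obtain ⟨a1, a2, a3⟩ := hmem z hzc
    rw [hnorm, div_le_one (hfpos z a1 a2 a3)]
    rw [hU, Complex.frontier_reProdIm, frontier_Ioo (by linarith), frontier_Ioo (by linarith)] at hz
    have hx2 : 0 ≤ ε * z.re ^ 2 := by positivity
    rcases hz with hz | hz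
    · rw [Complex.mem_reProdIm] at hz
      rcases hz.2 with h5 | h5
      · refine le_trans (Real.exp_le_exp.mpr ?_) (h0 z a1 h5)
        apply mul_le_mul_of_nonneg_left _ hL.le
        rw [h5]
        have : ε * y0 ^ 2 ≤ ε * Y := by
          apply mul_le_mul_of_nonneg_left _ hε0.le
          rw [hY]; linarith [sq_nonneg y2]
        linarith
      · have h5' : z.im = y2 := h5
        refine le_trans (Real.exp_le_exp.mpr ?_) (h2 z a1 h5')
        apply mul_le_mul_of_nonneg_left _ hL.le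
        rw [h5']
        have : ε * y2 ^ 2 ≤ ε * Y := by
          apply mul_le_mul_of_nonneg_left _ hε0.le
          rw [hY]; linarith [sq_nonneg y0]
        linarith
    · rw [Complex.mem_reProdIm] at hz
      have hre : z.re ^ 2 = R ^ 2 := by
        rcases hz.1 with h5 | h5
        · rw [h5]; ring
        · have h5' : z.re = R := h5
          rw [h5']
      refine le_trans (Real.exp_le_exp.mpr ?_) (hB z a1 a2 a3)
      have h6 : -(L * B) = L * (-B) := by ring
      rw [h6]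
      apply mul_le_mul_of_nonneg_left _ hL.le
      rw [hre, hR2]
      have h7 := hlb z.im a2 a3
      have h8 : ε * z.im ^ 2 ≤ ε * Y := by
        apply mul_le_mul_of_nonneg_left _ hε0.le
        rw [hY]
        -- |im z| ≤ max(|y0|, |y2|)
        rcases le_total 0 z.im with h9 | h9
        · have : z.im ^ 2 ≤ y2 ^ 2 := by apply pow_le_pow_left₀ h9 a3
          linarith [sq_nonneg y0]
        · have h11 : z.im ^ 2 ≤ (-y0) ^ 2 := sq_le_sq' (by linarith) (by linarith)
          rw [neg_sq] at h11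
          linarith [sq_nonneg y2]
      have h10 := le_abs_self B
      rw [hQ]
      linarith
  have hz1 : (I * y1 : ℂ) ∈ closure U := by
    rw [hcl, Complex.mem_reProdIm]
    simp
    exact ⟨hR0.le, h01.le, h12.le⟩
  have hmain := Complex.norm_le_of_forall_mem_frontier_norm_le hbd hdiff hfr hz1
  obtain ⟨a1, a2, a3⟩ := hmem _ hz1
  rw [hnorm, div_le_one (hfpos _ a1 a2 a3)] at hmain
  refine le_trans (Real.exp_le_exp.mpr ?_) hmain
  apply mul_le_mul_of_nonneg_left _ hL.le
  have e1 : (I * (y1 : ℂ)).im = y1 := by simp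
  have e2 : (I * (y1 : ℂ)).re = 0 := by simp
  rw [e1, e2]
  have : 0 ≤ ε * y1 ^ 2 := by positivity
  linarith

end Pool.Agent.Helper36.LQ
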