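import Pool.Agent.Helper36.LQ.C0

/-! `nn`: integrability and a crude bound. -/

set_option autoImplicit false

open Complex MeasureTheory Filter Topology

namespace Pool.Agent.Helper36.LQ

open Pool.Agent.Helper75.LQ

theorem continuous_ga (v : ℝ) : Continuous (fun d : ℝ => ga v d) := by
  unfold ga
  fun_prop

theorem continuous_S {g : ℂ → ℂ} (hg : Differentiable ℂ g) (s y : ℝ) :
    Continuous (fun d : ℝ => S g s (y - I * d)) := by
  have h1 := (S_differentiable hg s).continuous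
  exact h1.comp (by fun_prop)

/-- the crude bound of the integrand of `nn` -/
theorem S_crude {g : ℂ → ℂ} {C L : ℝ} (hC : 0 ≤ C)
    (h : ∀ z : ℂ, |z.im| ≤ 8 → ‖g z‖ ≤ Real.exp (C * L + C * |z.re|)) (s y d : ℝ) (hy : |y| ≤ 8) :
    ‖S g s (y - I * d)‖ ≤ Real.exp (2 * C * L + 2 * C * |s| + C) * Real.exp (C * d ^ 2) := by
  have h1 : (s : ℂ) + I * (y - I * d) = ((s + d : ℝ) : ℂ) + I * y := by
    have : I * (I * (d : ℂ)) = -d := by rw [← mul_assoc, Complex.I_mul_I]; ring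
    rw [mul_sub, this]; push_cast; ring
  have h2 : (s : ℂ) - I * (y - I * d) = ((s - d : ℝ) : ℂ) + I * ((-y : ℝ) : ℂ) := by
    have : I * (I * (d : ℂ)) = -d := by rw [← mul_assoc, Complex.I_mul_I]; ring
    rw [mul_sub, this]; push_cast; ring
  rw [S, h1, h2, norm_mul]
  have e1 := h (((s + d : ℝ) : ℂ) + I * y) (by simpa using hy)
  have e2 := h (((s - d : ℝ) : ℂ) + I * ((-y : ℝ) : ℂ)) (by simpa using hy)
  have e3 : (((s + d : ℝ) : ℂ) + I * y).re = s + d := by simp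
  have e4 : (((s - d : ℝ) : ℂ) + I * ((-y : ℝ) : ℂ)).re = s - d := by simp
  rw [e3] at e1
  rw [e4] at e2
  refine (mul_le_mul e1 e2 (norm_nonneg _) (Real.exp_pos _).le).trans ?_
  rw [← Real.exp_add, ← Real.exp_add]
  apply Real.exp_le_exp.mpr
  have h3 : |s + d| ≤ |s| + |d| := abs_add_le _ _
  have h4 : |s - d| ≤ |s| + |d| := abs_sub _ _
  have h5 : 2 * |d| ≤ 1 + d ^ 2 := by
    rw [← sq_abs d]
    nlinarith [sq_nonneg (|d| - 1)]
  have h6 : C * |s + d| ≤ C * (|s| + |d|) := mul_le_mul_of_nonneg_left h3 hC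
  have h7 : C * |s - d| ≤ C * (|s| + |d|) := mul_le_mul_of_nonneg_left h4 hC
  have h8 : C * (2 * |d|) ≤ C * (1 + d ^ 2) := mul_le_mul_of_nonneg_left h5 hC
  linarith

theorem nn_integrable {g : ℂ → ℂ} (hg : Differentiable ℂ g) {C L : ℝ} (hC : 0 ≤ C)
    (h : ∀ z : ℂ, |z.im| ≤ 8 → ‖g z‖ ≤ Real.exp (C * L + C * |z.re|)) {v : ℝ} (hv : 0 < v)
    (hCv : 4 * C * v ≤ 1) (s y : ℝ) (hy : |y| ≤ 8) :
    Integrable (fun d : ℝ => S g s (y - I * d) * ga v d) := by
  have hC' : C < 1 / (2 * v) := by rw [lt_div_iff₀ (by positivity)]; linarith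
  refine ((gauss_int hv hC').1.const_mul (Real.exp (2 * C * L + 2 * C * |s| + C))).mono'
    ((continuous_S hg s y).mul (continuous_ga v)).aestronglyMeasurable (Eventually.of_forall fun d => ?_)
  rw [norm_mul, ← mul_assoc]
  exact mul_le_mul_of_nonneg_right (S_crude hC h s y d hy) (norm_nonneg _)

theorem nn_le {g : ℂ → ℂ} {C L : ℝ} (hC : 0 ≤ C)
    (h : ∀ z : ℂ, |z.im| ≤ 8 → ‖g z‖ ≤ Real.exp (C * L + C * |z.re|)) {v : ℝ} (hv : 0 < v)
    (hCv : 4 * C * v ≤ 1) (s y : ℝ) (hy : |y| ≤ 8) :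
    ‖nn g v s y‖ ≤ 2 * Real.exp (2 * C * L + 2 * C * |s| + C) := by
  have hC' : C < 1 / (2 * v) := by rw [lt_div_iff₀ (by positivity)]; linarith
  rw [nn]
  refine (norm_integral_le_of_norm_le ((gauss_int hv hC').1.const_mul
    (Real.exp (2 * C * L + 2 * C * |s| + C))) (Eventually.of_forall fun d => ?_)).trans ?_
  · rw [norm_mul, ← mul_assoc]
    exact mul_le_mul_of_nonneg_right (S_crude hC h s y d hy) (norm_nonneg _)
  · rw [integral_const_mul, mul_comm]
    exact mul_le_mul_of_nonneg_right (gauss_int_le hv hCv) (Real.exp_pos _).le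

end Pool.Agent.Helper36.LQ
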