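import Pool.Agent.Helper75.LQ.Stl
import Pool.Agent.Helper36.LQ.C1
import Pool.Agent.Helper36.LQ.C3

/-! Packages C0a, C0b, C0c, C1, C3, local version. -/

set_option autoImplicit false

open Complex MeasureTheory Filter Topology

namespace Pool.Agent.Helper36.LQ

open Pool.Agent.Helper75.LQ

theorem sl_c0c : Sl_C0c := by
  intro A g L h η hη R
  filter_upwards [h.up0 (η / 2) (by positivity) (R + 2 * A)] with j hj s m hs
  have hA := h.A0
  have key : ∀ ζ : ℂ, ‖ζ‖ = 2 * A → ‖S (g j) s ζ‖ ≤ Real.exp (L j * (2 * A + η)) := by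
    intro ζ hζ
    have him : |ζ.im| ≤ 2 * A := (Complex.abs_im_le_norm ζ).trans hζ.le
    have hre : |ζ.re| ≤ 2 * A := (Complex.abs_re_le_norm ζ).trans hζ.le
    have e1 : ‖g j (s + I * ζ)‖ ≤ Real.exp (L j * (A + η / 2)) := by
      apply hj
      · have : ((s : ℂ) + I * ζ).re = s - ζ.im := by simp [sub_eq_add_neg]
        rw [this]
        exact (abs_sub _ _).trans (by linarith)
      · simpa using hre
    have e2 : ‖g j (s - I * ζ)‖ ≤ Real.exp (L j * (A + η / 2)) := by
      apply hj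
      · have : ((s : ℂ) - I * ζ).re = s + ζ.im := by simp
        rw [this]
        exact (abs_add_le _ _).trans (by linarith)
      · simpa using hre
    rw [S, norm_mul]
    calc ‖g j (s + I * ζ)‖ * ‖g j (s - I * ζ)‖ ≤
        Real.exp (L j * (A + η / 2)) * Real.exp (L j * (A + η / 2)) := by gcongr
      _ = _ := by rw [← Real.exp_add]; congr 1; ring
  have h1 := tc_le (S_differentiable (h.ent j) s) (by positivity) key (2 * m)
  exact (Complex.abs_re_le_norm _).trans h1

/-- `S` on the disc of radius `6` -/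
theorem ev_six {A : ℝ} {g : ℕ → ℂ → ℂ} {L : ℕ → ℝ} (h : TL A g L) (R : ℝ) :
    ∀ᶠ j in atTop, ∀ s : ℝ, |s| ≤ R → ∀ ζ : ℂ, ‖ζ‖ ≤ 6 → ‖S (g j) s ζ‖ ≤ Real.exp (7 * L j) := by
  have hA1 := h.A1
  filter_upwards [h.up0 (1 / 2) (by norm_num) (R + 6), h.up1 (1 / 2) (by norm_num) (R + 6),
    h.lim.eventually_ge_atTop 0] with j h1 h2 hL s hs ζ hζ
  have him : |ζ.im| ≤ 6 := (Complex.abs_im_le_norm ζ).trans hζ
  have hre : |ζ.re| ≤ 6 := (Complex.abs_re_le_norm ζ).trans hζ
  have key : ∀ z : ℂ, |z.re| ≤ R + 6 → |z.im| ≤ 6 → ‖g j z‖ ≤ Real.exp (L j * (7 / 2)) := by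
    intro z hz1 hz2
    rcases le_total |z.im| (2 * A) with h3 | h3
    · refine (h1 z hz1 h3).trans (Real.exp_le_exp.2 (mul_le_mul_of_nonneg_left (by linarith) hL))
    · refine (h2 z hz1 h3 (by linarith)).trans
        (Real.exp_le_exp.2 (mul_le_mul_of_nonneg_left (by linarith) hL))
  have e1 : ‖g j (s + I * ζ)‖ ≤ Real.exp (L j * (7 / 2)) := by
    apply key
    · have : ((s : ℂ) + I * ζ).re = s - ζ.im := by simp [sub_eq_add_neg]
      rw [this]
      exact (abs_sub _ _).trans (by linarith)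
    · simpa using hre
  have e2 : ‖g j (s - I * ζ)‖ ≤ Real.exp (L j * (7 / 2)) := by
    apply key
    · have : ((s : ℂ) - I * ζ).re = s + ζ.im := by simp
      rw [this]
      exact (abs_add_le _ _).trans (by linarith)
    · simpa using hre
  rw [S, norm_mul]
  calc ‖g j (s + I * ζ)‖ * ‖g j (s - I * ζ)‖ ≤
      Real.exp (L j * (7 / 2)) * Real.exp (L j * (7 / 2)) := by gcongr
    _ = _ := by rw [← Real.exp_add]; congr 1; ring

/-- the error of the Taylor polynomial is small -/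
theorem tay_small {L : ℝ} (h1 : 1 ≤ L) : 2 * Real.exp (7 * L) * (1 / 4) ^ ⌈10 * L⌉₊ ≤
    Real.exp (-L) := by
  have hN : 10 * L ≤ ⌈10 * L⌉₊ := Nat.le_ceil _
  have hl4 : 1.38 ≤ Real.log 4 := by
    have : (4 : ℝ) = 2 ^ 2 := by norm_num
    rw [this, Real.log_pow]
    have := Real.log_two_gt_d9
    push_cast; linarith
  have h3 : (1 / 4 : ℝ) ^ ⌈10 * L⌉₊ ≤ Real.exp (-(13.8 * L)) := by
    rw [one_div, inv_pow, Real.exp_neg]
    apply inv_anti₀ (Real.exp_pos _)
    rw [← Real.exp_log (show (0 : ℝ) < 4 by norm_num), ← Real.exp_nat_mul]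
    apply Real.exp_le_exp.mpr
    calc 13.8 * L = 10 * L * 1.38 := by ring
      _ ≤ ⌈10 * L⌉₊ * Real.log 4 := by gcongr
  have h4 : (2 : ℝ) ≤ Real.exp 1 := by
    have := Real.exp_one_gt_d9
    linarith
  calc 2 * Real.exp (7 * L) * (1 / 4) ^ ⌈10 * L⌉₊
      ≤ Real.exp 1 * Real.exp (7 * L) * Real.exp (-(13.8 * L)) := by gcongr
    _ = Real.exp (1 + 7 * L + -(13.8 * L)) := by rw [Real.exp_add, Real.exp_add]
    _ ≤ Real.exp (-L) := Real.exp_le_exp.mpr (by linarith)

theorem sl_c0b : Sl_C0b := by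
  intro A g L h R
  filter_upwards [ev_six h R, h.lim.eventually_ge_atTop 1] with j h6 hL1 s Y hs hY
  have hrem := tay_rem (h.ent j) (s : ℂ) (Y : ℂ) (K := Real.exp (7 * L j))
    (by rw [Complex.norm_real]; exact hY) (fun ζ hζ => h6 s hs ζ hζ.le) (ML L j)
  have hS : S (g j) s Y = ((‖g j (s + I * Y)‖ ^ 2 : ℝ) : ℂ) := by
    have e : (s : ℂ) - I * Y = (starRingEnd ℂ) (s + I * Y) := by
      rw [map_add, map_mul, Complex.conj_ofReal, Complex.conj_ofReal, Complex.conj_I]; ring
    rw [S, e, h.re, Complex.mul_conj, Complex.normSq_eq_norm_sq]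
  have hsum : ((∑ m ∈ Finset.range (ML L j), tc (S (g j) s) (2 * m) * (Y : ℂ) ^ (2 * m)) -
      S (g j) s Y).re = (∑ m ∈ Finset.range (ML L j), Lag (g j) s m * Y ^ (2 * m)) -
        ‖g j (s + I * Y)‖ ^ 2 := by
    rw [Complex.sub_re, hS, Complex.ofReal_re, Complex.re_sum]
    congr 1
    refine Finset.sum_congr rfl fun m _ => ?_
    rw [← Complex.ofReal_pow, Complex.re_mul_ofReal, Lag]
  rw [abs_sub_comm, ← hsum]
  refine (Complex.abs_re_le_norm _).trans (hrem.trans ((tay_small hL1).trans ?_))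
  rw [Real.exp_le_one_iff]
  linarith

/-- the crude bound of the integrand of `nn` -/
theorem Sl_crude {g : ℂ → ℂ} {L R : ℝ}
    (h : ∀ z : ℂ, |z.re| ≤ R → |z.im| ≤ 8 → ∀ w : ℝ, ‖g (z + w)‖ ≤ Real.exp (L * (5 + w ^ 2)))
    {s : ℝ} (hs : |s| ≤ R) (a y d : ℝ) (hy : |y| ≤ 8) :
    ‖S g ((s - a : ℝ) : ℂ) (y - I * d)‖ ≤ Real.exp (10 * L + 2 * L * a ^ 2) * Real.exp (2 * L * d ^ 2) := by
  have h1 : ((s - a : ℝ) : ℂ) + I * (y - I * d) = ((s : ℂ) + I * y) + ((d - a : ℝ) : ℂ) := by
    have : I * (I * (d : ℂ)) = -d := by rw [← mul_assoc, Complex.I_mul_I]; ring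
    rw [mul_sub, this]; push_cast; ring
  have h2 : ((s - a : ℝ) : ℂ) - I * (y - I * d) =
      ((s : ℂ) + I * ((-y : ℝ) : ℂ)) + ((-d - a : ℝ) : ℂ) := by
    have : I * (I * (d : ℂ)) = -d := by rw [← mul_assoc, Complex.I_mul_I]; ring
    rw [mul_sub, this]; push_cast; ring
  rw [S, h1, h2, norm_mul]
  have e1 := h ((s : ℂ) + I * y) (by simpa using hs) (by simpa using hy) (d - a)
  have e2 := h ((s : ℂ) + I * ((-y : ℝ) : ℂ)) (by simpa using hs) (by simpa using hy) (-d - a)
  refine (mul_le_mul e1 e2 (norm_nonneg _) (Real.exp_pos _).le).trans (le_of_eq ?_)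
  rw [← Real.exp_add, ← Real.exp_add]
  congr 1
  ring

theorem nnl_integrable {g : ℂ → ℂ} (hg : Differentiable ℂ g) {L R : ℝ}
    (h : ∀ z : ℂ, |z.re| ≤ R → |z.im| ≤ 8 → ∀ w : ℝ, ‖g (z + w)‖ ≤ Real.exp (L * (5 + w ^ 2)))
    {v : ℝ} (hv : 0 < v) (hLv : 4 * (2 * L) * v ≤ 1) {s : ℝ} (hs : |s| ≤ R) (a y : ℝ) (hy : |y| ≤ 8) :
    Integrable (fun d : ℝ => S g ((s - a : ℝ) : ℂ) (y - I * d) * ga v d) := by
  have hC' : 2 * L < 1 / (2 * v) := by rw [lt_div_iff₀ (by positivity)]; linarith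
  refine ((gauss_int hv hC').1.const_mul (Real.exp (10 * L + 2 * L * a ^ 2))).mono'
    ((continuous_S hg (s - a) y).mul (continuous_ga v)).aestronglyMeasurable
    (Eventually.of_forall fun d => ?_)
  rw [norm_mul, ← mul_assoc]
  exact mul_le_mul_of_nonneg_right (Sl_crude h hs a y d hy) (norm_nonneg _)

theorem nnl_le {g : ℂ → ℂ} {L R : ℝ}
    (h : ∀ z : ℂ, |z.re| ≤ R → |z.im| ≤ 8 → ∀ w : ℝ, ‖g (z + w)‖ ≤ Real.exp (L * (5 + w ^ 2)))
    {v : ℝ} (hv : 0 < v) (hLv : 4 * (2 * L) * v ≤ 1) {s : ℝ} (hs : |s| ≤ R) (a y : ℝ) (hy : |y| ≤ 8) :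
    ‖nn g v (s - a) y‖ ≤ 2 * Real.exp (10 * L + 2 * L * a ^ 2) := by
  have hC' : 2 * L < 1 / (2 * v) := by rw [lt_div_iff₀ (by positivity)]; linarith
  rw [nn]
  refine (norm_integral_le_of_norm_le ((gauss_int hv hC').1.const_mul
    (Real.exp (10 * L + 2 * L * a ^ 2))) (Eventually.of_forall fun d => ?_)).trans ?_
  · rw [norm_mul, ← mul_assoc]
    exact mul_le_mul_of_nonneg_right (Sl_crude h hs a y d hy) (norm_nonneg _)
  · rw [integral_const_mul, mul_comm]
    exact mul_le_mul_of_nonneg_right (gauss_int_le hv hLv) (Real.exp_pos _).le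

/-- the error of the Taylor polynomial at `y - i d`, for all real `d` -/
theorem errl_le {g : ℂ → ℂ} (hg : Differentiable ℂ g) {L : ℝ} (hL : 0 ≤ L) {s y : ℝ}
    (h6 : ∀ ζ : ℂ, ‖ζ‖ ≤ 6 → ‖S g s ζ‖ ≤ Real.exp (7 * L))
    (hcr : ∀ d : ℝ, ‖S g s (y - I * d)‖ ≤ Real.exp (10 * L) * Real.exp (2 * L * d ^ 2))
    (hy : |y| ≤ 2) (N : ℕ) {δ b : ℝ} (hb : 0 ≤ b)
    (hδ : 2 * Real.exp (7 * L) * (1 / 4) ^ N ≤ δ) (d : ℝ) :
    ‖S g s (y - I * d) - ∑ m ∈ Finset.range N, tc (S g s) (2 * m) * ((y : ℂ) - I * d) ^ (2 * m)‖ ≤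
      δ + (1 + N) * Real.exp (10 * L) * Real.exp (-b) * Real.exp ((N + 2 * L + b) * d ^ 2) := by
  have hδ0 : 0 ≤ δ := le_trans (by positivity) hδ
  have hd0 : 0 ≤ |d| := abs_nonneg d
  have hnorm : ‖(y : ℂ) - I * d‖ ^ 2 = y ^ 2 + d ^ 2 := by
    rw [← Complex.normSq_eq_norm_sq, Complex.normSq_apply]
    simp; ring
  have hy2 : y ^ 2 ≤ 4 := by rw [← sq_abs]; have := abs_nonneg y; nlinarith
  rcases le_or_gt |d| 1 with hd | hd
  · have h3 : ‖(y : ℂ) - I * d‖ ≤ 3 := by
      have : d ^ 2 ≤ 1 := by rw [← sq_abs]; nlinarith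
      apply le_of_sq_le_sq _ (by norm_num)
      rw [hnorm]; linarith
    rw [← norm_neg, neg_sub]
    refine (tay_rem hg (s : ℂ) _ h3 (fun ζ hζ => h6 ζ hζ.le) N).trans (hδ.trans ?_)
    have : 0 ≤ (1 + (N : ℝ)) * Real.exp (10 * L) * Real.exp (-b) *
        Real.exp ((N + 2 * L + b) * d ^ 2) := by positivity
    linarith
  · have hd2 : 1 ≤ d ^ 2 := by rw [← sq_abs]; nlinarith
    set K : ℝ := Real.exp (10 * L) with hK
    have e1 : ‖S g s (y - I * d)‖ ≤ K * Real.exp ((N + 2 * L) * d ^ 2) := by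
      refine (hcr d).trans ?_
      apply mul_le_mul_of_nonneg_left _ (Real.exp_pos _).le
      apply Real.exp_le_exp.mpr
      have : 0 ≤ (N : ℝ) * d ^ 2 := by positivity
      nlinarith
    have e2 : ‖∑ m ∈ Finset.range N, tc (S g s) (2 * m) * ((y : ℂ) - I * d) ^ (2 * m)‖ ≤
        N * (K * Real.exp ((N + 2 * L) * d ^ 2)) := by
      refine (norm_sum_le _ _).trans ?_
      have e3 : ∀ m ∈ Finset.range N, ‖tc (S g s) (2 * m) * ((y : ℂ) - I * d) ^ (2 * m)‖ ≤
          K * Real.exp ((N + 2 * L) * d ^ 2) := by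
        intro m hm
        have hmN : (m : ℝ) ≤ N := by exact_mod_cast (Finset.mem_range.mp hm).le
        rw [norm_mul, norm_pow]
        have e4 : ‖(y : ℂ) - I * d‖ ^ (2 * m) ≤ 6 ^ (2 * m) * Real.exp ((N + 2 * L) * d ^ 2) := by
          rw [pow_mul, hnorm, pow_mul]
          calc (y ^ 2 + d ^ 2) ^ m ≤ (6 ^ 2 * Real.exp (d ^ 2)) ^ m := by
                apply pow_le_pow_left₀ (by positivity)
                have := Real.add_one_le_exp (d ^ 2)
                linarith
            _ = (6 ^ 2) ^ m * Real.exp (m * d ^ 2) := by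
                rw [mul_pow, ← Real.exp_nat_mul]
            _ ≤ (6 ^ 2) ^ m * Real.exp ((N + 2 * L) * d ^ 2) := by
                apply mul_le_mul_of_nonneg_left _ (by positivity)
                apply Real.exp_le_exp.mpr
                apply mul_le_mul_of_nonneg_right _ (by positivity)
                linarith
        calc ‖tc (S g s) (2 * m)‖ * ‖(y : ℂ) - I * d‖ ^ (2 * m) ≤
            K / 6 ^ (2 * m) * (6 ^ (2 * m) * Real.exp ((N + 2 * L) * d ^ 2)) := by
              apply mul_le_mul (tc_le (S_differentiable hg s) (by norm_num)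
                (fun ζ hζ => (h6 ζ hζ.le).trans (Real.exp_le_exp.2 (by linarith))) _) e4
                (by positivity) (by positivity)
          _ = K * Real.exp ((N + 2 * L) * d ^ 2) := by
              rw [← mul_assoc, div_mul_cancel₀ _ (by positivity)]
      refine (Finset.sum_le_sum e3).trans ?_
      rw [Finset.sum_const, Finset.card_range, nsmul_eq_mul]
    have e5 : Real.exp ((N + 2 * L) * d ^ 2) ≤ Real.exp (-b) * Real.exp ((N + 2 * L + b) * d ^ 2) := by
      rw [← Real.exp_add]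
      apply Real.exp_le_exp.mpr
      have := mul_le_mul_of_nonneg_left hd2 hb
      nlinarith
    calc ‖S g s (y - I * d) - ∑ m ∈ Finset.range N, tc (S g s) (2 * m) *
          ((y : ℂ) - I * d) ^ (2 * m)‖ ≤
        K * Real.exp ((N + 2 * L) * d ^ 2) + N * (K * Real.exp ((N + 2 * L) * d ^ 2)) :=
          (norm_sub_le _ _).trans (add_le_add e1 e2)
      _ = (1 + N) * K * Real.exp ((N + 2 * L) * d ^ 2) := by ring
      _ ≤ (1 + N) * K * (Real.exp (-b) * Real.exp ((N + 2 * L + b) * d ^ 2)) := by gcongr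
      _ ≤ δ + (1 + N) * K * Real.exp (-b) * Real.exp ((N + 2 * L + b) * d ^ 2) := by
          rw [← mul_assoc]; linarith

theorem finl_small {L c N : ℝ} (hL1 : 2 ≤ L) (hN2 : N ≤ 10 * L + 1) (hcL : 1000 * L ≤ c * L) :
    Real.exp (-L) * 2 + (1 + N) * Real.exp (10 * L) * Real.exp (-(c * L / 8)) * 2 ≤ 1 := by
  have hδ2 : Real.exp (-L) * 2 ≤ 1 / 2 := by
    have h1 : Real.exp (-L) ≤ Real.exp (-2) := Real.exp_le_exp.mpr (by linarith)
    have h2 : Real.exp (-2) ≤ 1 / 4 := by
      rw [Real.exp_neg, one_div]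
      exact inv_anti₀ (by norm_num) four_le_exp_two
    linarith
  have hN3 : 1 + N ≤ Real.exp (11 * L) := by
    have h1 := Real.add_one_le_exp (11 * L)
    linarith
  have h5 : 4 * ((1 + N) * Real.exp (10 * L) * Real.exp (-(c * L / 8))) ≤ 1 := by
    calc 4 * ((1 + N) * Real.exp (10 * L) * Real.exp (-(c * L / 8)))
        = 4 * (1 + N) * (Real.exp (10 * L) * Real.exp (-(c * L / 8))) := by ring
      _ ≤ Real.exp 2 * Real.exp (11 * L) * (Real.exp (10 * L) * Real.exp (-(c * L / 8))) := by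
          apply mul_le_mul_of_nonneg_right _ (by positivity)
          calc 4 * (1 + N) ≤ 4 * Real.exp (11 * L) := by linarith
            _ ≤ Real.exp 2 * Real.exp (11 * L) :=
              mul_le_mul_of_nonneg_right four_le_exp_two (Real.exp_pos _).le
      _ = Real.exp (2 + 11 * L + (10 * L + -(c * L / 8))) := by
          rw [Real.exp_add, Real.exp_add, Real.exp_add]
      _ ≤ 1 := by
          rw [Real.exp_le_one_iff]
          linarith
  linarith

theorem sl_c0a (hB : St_B1) : Sl_C0a := by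
  intro A g L h
  refine ⟨1000, fun c hc R => ?_⟩
  filter_upwards [ev_six h R, h.strip2 R, h.lim.eventually_ge_atTop 2] with j h6 hst hL1 s y hs hy
  have hc0 : 0 < c := by linarith
  have hL0 : 0 < L j := by linarith
  obtain ⟨v, hv⟩ : ∃ v, v = vv c L j / 2 := ⟨_, rfl⟩
  rw [← hv]
  have hv1 : v = 1 / (2 * (c * L j)) := by rw [hv, vv]; field_simp
  have hcL : 0 < c * L j := by positivity
  have hv0 : 0 < v := by rw [hv1]; positivity
  have hcL1 : 1000 * L j ≤ c * L j := mul_le_mul_of_nonneg_right hc hL0.le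
  obtain ⟨N, hN⟩ : ∃ N, N = ML L j := ⟨_, rfl⟩
  rw [← hN]
  have hN2 : (N : ℝ) ≤ 10 * L j + 1 := by
    rw [hN, ML]
    exact (Nat.ceil_lt_add_one (by positivity)).le
  have hv4 : v * (c * L j) = 1 / 2 := by rw [hv1]; field_simp
  have hLv : 4 * (2 * L j) * v ≤ 1 := by
    have : 1000 * L j * v ≤ c * L j * v := mul_le_mul_of_nonneg_right hcL1 hv0.le
    nlinarith
  obtain ⟨b, hb⟩ : ∃ b, b = c * L j / 8 := ⟨_, rfl⟩
  have hb0 : 0 ≤ b := by rw [hb]; positivity
  have hbv : 4 * (N + 2 * L j + b) * v ≤ 1 := by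
    have h1 : (N : ℝ) + 2 * L j + b ≤ c * L j / 2 := by rw [hb]; nlinarith
    have h2 : (N + 2 * L j + b) * v ≤ (c * L j / 2) * v := mul_le_mul_of_nonneg_right h1 hv0.le
    nlinarith
  have hbv' : N + 2 * L j + b < 1 / (2 * v) := by
    rw [lt_div_iff₀ (by positivity)]; linarith
  have hy8 : |y| ≤ 8 := by linarith
  have hcr : ∀ d : ℝ, ‖S (g j) s (y - I * d)‖ ≤ Real.exp (10 * L j) * Real.exp (2 * L j * d ^ 2) := by
    intro d
    have := Sl_crude hst hs 0 y d hy8
    simpa using this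
  -- the integral of the error
  have hi1 : Integrable (fun d : ℝ => S (g j) s (y - I * d) * ga v d) := by
    have := nnl_integrable (h.ent j) hst hv0 hLv hs 0 y hy8
    simpa using this
  have hi2 : ∀ m ∈ Finset.range N, Integrable
      (fun d : ℝ => tc (S (g j) s) (2 * m) * (((y : ℂ) - I * d) ^ (2 * m) * ga v d)) :=
    fun m _ => ((hB v hv0 y (2 * m)).1).const_mul _
  have hint : nn (g j) v s y - ∑ m ∈ Finset.range N, tc (S (g j) s) (2 * m) * hn v y (2 * m) =
      ∫ d : ℝ, (S (g j) s (y - I * d) - ∑ m ∈ Finset.range N, tc (S (g j) s) (2 * m) *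
        ((y : ℂ) - I * d) ^ (2 * m)) * ga v d := by
    have e1 : (fun d : ℝ => (S (g j) s (y - I * d) - ∑ m ∈ Finset.range N,
        tc (S (g j) s) (2 * m) * ((y : ℂ) - I * d) ^ (2 * m)) * ga v d) =
        fun d : ℝ => S (g j) s (y - I * d) * ga v d - ∑ m ∈ Finset.range N,
          tc (S (g j) s) (2 * m) * (((y : ℂ) - I * d) ^ (2 * m) * ga v d) := by
      funext d
      rw [sub_mul, Finset.sum_mul]
      congr 1
      exact Finset.sum_congr rfl fun m _ => by ring
    rw [e1, integral_sub hi1 (integrable_finsetSum _ hi2), integral_finsetSum _ hi2, nn]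
    congr 1
    refine Finset.sum_congr rfl fun m _ => ?_
    rw [integral_const_mul, hn]
  obtain ⟨δ, hδ⟩ : ∃ δ, δ = Real.exp (-L j) := ⟨_, rfl⟩
  have hsmall : ‖nn (g j) v s y - ∑ m ∈ Finset.range N, tc (S (g j) s) (2 * m) * hn v y (2 * m)‖ ≤
      δ * 2 + (1 + N) * Real.exp (10 * L j) * Real.exp (-b) * 2 := by
    rw [hint]
    have hg0 := gauss_int (a := 0) hv0 (by positivity)
    have hg1 := gauss_int (a := N + 2 * L j + b) hv0 hbv'
    refine (norm_integral_le_of_norm_le ((hg0.1.const_mul δ).add (hg1.1.const_mul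
      ((1 + N) * Real.exp (10 * L j) * Real.exp (-b))))
      (Eventually.of_forall fun d => ?_)).trans ?_
    · rw [norm_mul]
      refine (mul_le_mul_of_nonneg_right (errl_le (h.ent j) hL0.le (h6 s hs) hcr hy N hb0
        (δ := δ) (by rw [hδ, hN, ML]; exact tay_small (by linarith)) d)
        (norm_nonneg _)).trans (le_of_eq ?_)
      simp only [zero_mul, Real.exp_zero, one_mul, Pi.add_apply]
      ring
    · refine (le_of_eq (integral_add (hg0.1.const_mul δ) (hg1.1.const_mul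
        ((1 + N) * Real.exp (10 * L j) * Real.exp (-b))))).trans ?_
      rw [integral_const_mul, integral_const_mul]
      apply add_le_add
      · apply mul_le_mul_of_nonneg_left (gauss_int_le hv0 (by norm_num)) (by rw [hδ]; positivity)
      · apply mul_le_mul_of_nonneg_left (gauss_int_le hv0 hbv) (by positivity)
  have hre : (nn (g j) v s y - ∑ m ∈ Finset.range N, tc (S (g j) s) (2 * m) *
      hn v y (2 * m)).re = (nn (g j) v s y).re -
      ∑ m ∈ Finset.range N, Lag (g j) s m * (hn v y (2 * m)).re := by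
    rw [Complex.sub_re, Complex.re_sum]
    congr 1
    refine Finset.sum_congr rfl fun m _ => ?_
    rw [Complex.mul_re, (hB v hv0 y (2 * m)).2, mul_zero, sub_zero, Lag]
  rw [← hre]
  refine (Complex.abs_re_le_norm _).trans (hsmall.trans ?_)
  rw [hδ, hb]
  exact finl_small hL1 hN2 hcL1

theorem sl_c1 (hB1 : St_B1) (hB2 : St_B2) : Sl_C1 := by
  intro A g L h
  have hA0 := h.A0
  have hA1 := h.A1
  obtain ⟨c1, hc1⟩ := sl_c0a hB1 A g L h
  refine ⟨max c1 (max 1 (11 / A ^ 2)), fun c hc η hη R => ?_⟩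
  have hcc1 : c1 ≤ c := (le_max_left _ _).trans hc
  have hc0 : 0 < c := by
    have : (1 : ℝ) ≤ c := (le_max_left _ _).trans ((le_max_right _ _).trans hc)
    linarith
  have hcA : 11 ≤ c * A ^ 2 := by
    have : 11 / A ^ 2 ≤ c := (le_max_right _ _).trans ((le_max_right _ _).trans hc)
    rwa [div_le_iff₀ (by positivity)] at this
  have hlA : 0 ≤ Real.log (1 / A) := Real.log_nonneg (by
    rw [le_div_iff₀ hA0]; linarith)
  obtain ⟨κ, hκ⟩ : ∃ κ, κ = η / (8 * (Real.log (1 / A) + 1)) := ⟨_, rfl⟩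
  have hκ0 : 0 < κ := by rw [hκ]; positivity
  have hκ1 : κ * Real.log (1 / A) ≤ η / 8 := by
    have e : κ * (Real.log (1 / A) + 1) = η / 8 := by rw [hκ]; field_simp
    nlinarith
  have hκ2 : κ ≤ η / 8 := by
    have e : κ * (Real.log (1 / A) + 1) = η / 8 := by rw [hκ]; field_simp
    nlinarith
  filter_upwards [hc1 c hcc1 R, sl_c0c A g L h (η / 4) (by positivity) R, h.pos κ hκ0 R,
    h.lim.eventually_ge_atTop 1, h.lim.eventually_ge_atTop (4 / η)] with j hj1 hj2 hj3 hL1 hL2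
    s y hs hy1 hy2
  have hL0 : 0 < L j := by linarith
  have hy0 : 0 < y := by linarith
  have habs := hj1 s y hs (by rw [abs_of_pos hy0]; exact hy2)
  obtain ⟨v, hv⟩ : ∃ v, v = vv c L j / 2 := ⟨_, rfl⟩
  rw [← hv] at habs ⊢
  have hcL : 0 < c * L j := by positivity
  have hv1 : v = 1 / (2 * (c * L j)) := by rw [hv, vv]; field_simp
  have hv0 : 0 < v := by rw [hv1]; positivity
  obtain ⟨N, hN⟩ : ∃ N, N = ML L j := ⟨_, rfl⟩
  rw [← hN] at habs
  have hN2 : (N : ℝ) ≤ 10 * L j + 1 := by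
    rw [hN, ML]
    exact (Nat.ceil_lt_add_one (by positivity)).le
  -- the Hermite numbers
  have hh : ∀ m ∈ Finset.range N, 0 < (hn v y (2 * m)).re ∧ (hn v y (2 * m)).re ≤ y ^ (2 * m) := by
    intro m hm
    apply hB2 v y hv0 hy0
    have hmN : (m : ℝ) ≤ N := by exact_mod_cast (Finset.mem_range.mp hm).le
    have h5 : (2 * A) ^ 2 ≤ y ^ 2 := by gcongr
    refine le_trans ?_ h5
    rw [hv1]
    push_cast
    have e : 4 * (1 / (2 * (c * L j))) * (2 * (m : ℝ)) = 4 * m / (c * L j) := by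
      field_simp
    rw [e, div_le_iff₀ hcL]
    have h6 : 11 * L j ≤ c * A ^ 2 * L j := by gcongr
    nlinarith
  have hE : ∀ m ∈ Finset.range N, (m : ℝ) < κ * L j →
      -Real.exp (L j * (2 * A + η / 2)) ≤ Lag (g j) s m * (hn v y (2 * m)).re := by
    intro m hm hmκ
    obtain ⟨h5, h6⟩ := hh m hm
    have h7 := hj2 s m hs
    have h8 : |Lag (g j) s m * (hn v y (2 * m)).re| ≤ Real.exp (L j * (2 * A + η / 2)) := by
      rw [abs_mul, abs_of_pos h5]
      calc |Lag (g j) s m| * (hn v y (2 * m)).re ≤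
          Real.exp (L j * (2 * A + η / 4)) / (2 * A) ^ (2 * m) * y ^ (2 * m) := by
            apply mul_le_mul h7 h6 h5.le (by positivity)
        _ = Real.exp (L j * (2 * A + η / 4)) * (y / (2 * A)) ^ (2 * m) := by
            rw [div_pow]; ring
        _ ≤ Real.exp (L j * (2 * A + η / 4)) * (1 / A) ^ (2 * m) := by
            apply mul_le_mul_of_nonneg_left _ (Real.exp_pos _).le
            apply pow_le_pow_left₀ (by positivity)
            rw [div_le_div_iff₀ (by positivity) hA0]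
            nlinarith
        _ = Real.exp (L j * (2 * A + η / 4)) * Real.exp (2 * m * Real.log (1 / A)) := by
            congr 1
            rw [← Real.exp_log (show 0 < 1 / A by positivity), ← Real.exp_nat_mul,
              Real.exp_log (show 0 < 1 / A by positivity)]
            push_cast
            ring_nf
        _ ≤ Real.exp (L j * (2 * A + η / 4)) * Real.exp (L j * (η / 4)) := by
            apply mul_le_mul_of_nonneg_left _ (Real.exp_pos _).le
            apply Real.exp_le_exp.mpr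
            calc 2 * (m : ℝ) * Real.log (1 / A) ≤ 2 * (κ * L j) * Real.log (1 / A) := by gcongr
              _ = L j * (2 * (κ * Real.log (1 / A))) := by ring
              _ ≤ L j * (η / 4) := by
                  apply mul_le_mul_of_nonneg_left _ hL0.le
                  linarith
        _ = Real.exp (L j * (2 * A + η / 2)) := by
            rw [← Real.exp_add]; congr 1; ring
    exact (abs_le.mp h8).1
  have hsum := sum_ge (N := N) (t := fun m => Lag (g j) s m * (hn v y (2 * m)).re)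
    (x := κ * L j) (E := Real.exp (L j * (2 * A + η / 2))) (by positivity) (Real.exp_pos _).le
    (fun m hm hκm => mul_nonneg (hj3 s hs m hκm) (hh m hm).1.le) hE
  have hfin : (κ * L j + 1) * Real.exp (L j * (2 * A + η / 2)) + 1 ≤
      Real.exp (L j * (2 * A + η)) := by
    have h1 : 1 ≤ Real.exp (L j * (2 * A + η / 2)) := Real.one_le_exp (by positivity)
    have h2 : κ * L j + 2 ≤ Real.exp (L j * (η / 2)) := by
      have h3 := Real.add_one_le_exp (L j * (η / 2))
      have h4 : 4 ≤ L j * η := by rwa [div_le_iff₀ hη] at hL2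
      have h5 : κ * L j ≤ η / 8 * L j := by gcongr
      nlinarith
    calc (κ * L j + 1) * Real.exp (L j * (2 * A + η / 2)) + 1 ≤
        (κ * L j + 2) * Real.exp (L j * (2 * A + η / 2)) := by linarith
      _ ≤ Real.exp (L j * (η / 2)) * Real.exp (L j * (2 * A + η / 2)) := by gcongr
      _ = Real.exp (L j * (2 * A + η)) := by rw [← Real.exp_add]; congr 1; ring
  have h9 := (abs_le.mp habs).1
  linarith

theorem sl_c3 : Sl_C3 := by
  intro A g L h
  refine ⟨1000, fun c hc R => ?_⟩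
  filter_upwards [h.strip2 R, h.lim.eventually_ge_atTop 1] with j hst hL1 s y b σ hs hy hb hσ
  have hc0 : 0 < c := by linarith
  have hL0 : 0 < L j := by linarith
  obtain ⟨v, hv⟩ : ∃ v, v = vv c L j / 2 := ⟨_, rfl⟩
  rw [← hv]
  have hv1 : v = 1 / (2 * (c * L j)) := by rw [hv, vv]; field_simp
  have hcL : 0 < c * L j := by positivity
  have hv0 : 0 < v := by rw [hv1]; positivity
  have hcL1 : 1000 * L j ≤ c * L j := mul_le_mul_of_nonneg_right hc hL0.le
  have hLv : 4 * (2 * L j) * v ≤ 1 := by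
    rw [hv1, mul_one_div, div_le_one (by positivity)]
    nlinarith
  have hy8 : |y| ≤ 8 := by linarith
  obtain ⟨K, hK⟩ : ∃ K : ℝ, K = 2 * Real.exp (10 * L j) := ⟨_, rfl⟩
  have hK0 : 0 < K := by rw [hK]; positivity
  -- pointwise bound
  have hpt : ∀ a : ℝ, 1 < |a| → ‖nn (g j) v (s - a) y * ga v (a + b + I * σ)‖ ≤
      (K * Real.exp (-(c * L j / 16))) *
        (Real.exp ((5 / 8 * (c * L j) + 2 * L j) * a ^ 2) * ‖ga v a‖) := by
    intro a ha
    have ha2 : 1 ≤ a ^ 2 := by
      rw [← sq_abs]; nlinarith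
    have e1 : ‖nn (g j) v (s - a : ℝ) y‖ ≤ K * Real.exp (2 * L j * a ^ 2) := by
      refine (nnl_le hst hv0 hLv hs a y hy8).trans (le_of_eq ?_)
      rw [hK, Real.exp_add]
      ring
    have e2 : ‖ga v (a + b + I * σ)‖ ≤ Real.exp (-(c * L j / 16)) *
        (Real.exp (5 / 8 * (c * L j) * a ^ 2) * ‖ga v a‖) := by
      rw [norm_ga, norm_ga_real]
      have hre : ((a : ℂ) + b + I * σ).re = a + b := by simp
      have him : ((a : ℂ) + b + I * σ).im = σ := by simp
      have h2v : 2 * v = 1 / (c * L j) := by rw [hv1]; field_simp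
      have e3 : Real.exp (-(c * L j / 16)) *
        (Real.exp (5 / 8 * (c * L j) * a ^ 2) * (Real.exp (-(a ^ 2 / (2 * v))) / √(2 * Real.pi * v))) =
        Real.exp (-(c * L j / 16) + (5 / 8 * (c * L j) * a ^ 2 + -(a ^ 2 / (2 * v)))) /
          √(2 * Real.pi * v) := by
        rw [Real.exp_add, Real.exp_add]; ring
      rw [hre, him, e3]
      apply div_le_div_of_nonneg_right _ (Real.sqrt_nonneg _)
      apply Real.exp_le_exp.mpr
      rw [h2v, div_div_eq_mul_div, div_one, div_div_eq_mul_div, div_one]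
      -- the quadratic inequality
      have hb2 : -(1 / 2 * |a|) ≤ 2 * a * b := by
        have h3 : |2 * a * b| ≤ 1 / 2 * |a| := by
          rw [abs_mul, abs_mul, abs_two]
          have := abs_nonneg a
          nlinarith
        linarith [neg_abs_le (2 * a * b)]
      have hσ2 : σ ^ 2 ≤ 1 / 16 := by
        rw [← sq_abs]
        have := abs_nonneg σ
        nlinarith
      have ha3 : |a| ≤ a ^ 2 := by
        rw [← sq_abs]; nlinarith
      have hq : 3 / 8 * a ^ 2 + 1 / 16 * 1 ≤ (a + b) ^ 2 - σ ^ 2 + 0 * a := by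
        have hb3 : 0 ≤ b ^ 2 := sq_nonneg b
        have e4 : (a + b) ^ 2 = a ^ 2 + 2 * a * b + b ^ 2 := by ring
        rw [e4]
        linarith
      have h9 := mul_le_mul_of_nonneg_left hq hcL.le
      linarith
    rw [norm_mul]
    calc ‖nn (g j) v (s - a) y‖ * ‖ga v (a + b + I * σ)‖ ≤
        (K * Real.exp (2 * L j * a ^ 2)) * (Real.exp (-(c * L j / 16)) *
        (Real.exp (5 / 8 * (c * L j) * a ^ 2) * ‖ga v a‖)) := by
          apply mul_le_mul e1 e2 (norm_nonneg _) (by positivity)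
      _ = _ := by
          rw [add_mul, Real.exp_add]
          ring
  have hint : (5 / 8 * (c * L j) + 2 * L j) < 1 / (2 * v) := by
    have h2v : 1 / (2 * v) = c * L j := by rw [hv1]; field_simp
    rw [h2v]
    nlinarith
  have hgi := gauss_int hv0 hint
  have hgi2 : ∫ a : ℝ, Real.exp ((5 / 8 * (c * L j) + 2 * L j) * a ^ 2) * ‖ga v a‖ ≤ 2 := by
    rw [hgi.2]
    have h3 : 2 * (5 / 8 * (c * L j) + 2 * L j) * v ≤ 3 / 4 := by
      rw [hv1, mul_one_div, div_le_iff₀ (by positivity)]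
      nlinarith
    rw [div_le_iff₀ (Real.sqrt_pos.mpr (by linarith))]
    have h2 : 1 / 2 ≤ √(1 - 2 * (5 / 8 * (c * L j) + 2 * L j) * v) := by
      apply Real.le_sqrt_of_sq_le
      linarith
    linarith
  have hms : MeasurableSet {a : ℝ | 1 < |a|} := measurableSet_lt measurable_const measurable_norm
  have hfin : (K * Real.exp (-(c * L j / 16))) * 2 ≤ 1 := by
    calc (K * Real.exp (-(c * L j / 16))) * 2 = 4 * Real.exp (10 * L j + -(c * L j / 16)) := by
          rw [Real.exp_add (10 * L j) (-(c * L j / 16)), hK]; ring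
      _ ≤ Real.exp 2 * Real.exp (10 * L j + -(c * L j / 16)) :=
          mul_le_mul_of_nonneg_right four_le_exp_two (Real.exp_pos _).le
      _ = Real.exp (2 + (10 * L j + -(c * L j / 16))) := by
          rw [← Real.exp_add]
      _ ≤ 1 := by
          rw [Real.exp_le_one_iff]
          nlinarith
  calc ∫ a in {a : ℝ | 1 < |a|}, ‖nn (g j) v (s - a) y * ga v (a + b + I * σ)‖
      ≤ ∫ a in {a : ℝ | 1 < |a|}, (K * Real.exp (-(c * L j / 16))) *
          (Real.exp ((5 / 8 * (c * L j) + 2 * L j) * a ^ 2) * ‖ga v a‖) := by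
        apply integral_mono_of_nonneg (Eventually.of_forall fun a => norm_nonneg _)
        · exact (hgi.1.const_mul _).integrableOn
        · rw [EventuallyLE, ae_restrict_iff' hms]
          exact Eventually.of_forall fun a ha => hpt a ha
    _ ≤ ∫ a : ℝ, (K * Real.exp (-(c * L j / 16))) *
          (Real.exp ((5 / 8 * (c * L j) + 2 * L j) * a ^ 2) * ‖ga v a‖) := by
        apply setIntegral_le_integral (hgi.1.const_mul _)
        exact Eventually.of_forall fun a => by positivity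
    _ ≤ (K * Real.exp (-(c * L j / 16))) * 2 := by
        rw [integral_const_mul]
        exact mul_le_mul_of_nonneg_left hgi2 (by positivity)
    _ ≤ 1 := hfin

end Pool.Agent.Helper36.LQ
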